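import Pool.Agent.H298Z.Pairs

/-!
# Algebraic independence of `π` and any two odd zeta values, for small heights

For every `D` there is `C > 0` such that, for all `k ≠ l` and all `H ≥ 1` with
`C (1 + log H) ≤ min k l`, every nonzero polynomial `P` in three variables with integer
coefficients of absolute value at most `H` and of total degree at most `D` satisfies
`|P(π, ζ(2k+1), ζ(2l+1))| ≥ exp(-C max k l)`.
-/

set_option autoImplicit false

namespace Pool.Agent.H298Z.AllPairs

open MvPolynomial

lemma oer_monomial {σ : Type*} (s : Option σ →₀ ℕ) (a : ℤ) :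
    optionEquivRight ℤ σ (monomial s a) = monomial s.some (Polynomial.monomial (s none) a) := by
  rw [optionEquivRight_apply, aeval_monomial, Finsupp.prod_option_index _ _ (by simp)
    (by intros; rw [pow_add]), monomial_eq, ← Polynomial.C_mul_X_pow_eq_monomial, C_mul, C_pow]
  simp only [Option.elim_none, Option.elim_some, MvPolynomial.algebraMap_apply,
    Polynomial.algebraMap_eq]
  ring

lemma oer_coeff {σ : Type*} (n : Option σ →₀ ℕ) (f : MvPolynomial (Option σ) ℤ) :
    ((optionEquivRight ℤ σ f).coeff n.some).coeff (n none) = f.coeff n := by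
  induction f using MvPolynomial.induction_on' generalizing n with
  | monomial j r =>
    classical
    rw [oer_monomial, coeff_monomial, coeff_monomial]
    by_cases hj : j = n
    · simp [hj]
    · rw [if_neg hj]
      split_ifs with h
      · rw [Polynomial.coeff_monomial, if_neg]
        intro h1
        apply hj
        rw [← Finsupp.optionElim_some j, ← Finsupp.optionElim_some n, h, h1]
      · simp
  | add p q hp hq => simp only [map_add, Polynomial.coeff_add, coeff_add, hp, hq]

lemma oer_coeff' {σ : Type*} (α : σ →₀ ℕ) (j : ℕ) (f : MvPolynomial (Option σ) ℤ) :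
    ((optionEquivRight ℤ σ f).coeff α).coeff j = f.coeff (α.optionElim j) := by
  have h := oer_coeff (α.optionElim j) f
  rwa [Finsupp.some_optionElim, Finsupp.optionElim_apply_none] at h

lemma oer_eval {σ : Type*} (x : ℂ) (z : σ → ℂ) (f : MvPolynomial (Option σ) ℤ) :
    eval₂ (Pool.Agent.H298Z.evx x) z (optionEquivRight ℤ σ f) =
      MvPolynomial.aeval (fun o : Option σ => o.elim x z) f := by
  induction f using MvPolynomial.induction_on with
  | C a =>
    rw [optionEquivRight_C, eval₂_C, Pool.Agent.H298Z.evx_apply, Polynomial.aeval_C, aeval_C]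
  | add p q hp hq => rw [map_add, eval₂_add, hp, hq, map_add]
  | mul_X p i hp =>
    rw [map_mul, eval₂_mul, hp, map_mul, aeval_X]
    congr 1
    cases i with
    | none =>
      rw [optionEquivRight_X_none, eval₂_C, Pool.Agent.H298Z.evx_apply, Polynomial.aeval_X,
        Option.elim_none]
    | some i => rw [optionEquivRight_X_some, eval₂_X, Option.elim_some]

theorem allPairs (D : ℕ) : ∃ C : ℝ, 0 < C ∧ ∀ k l : ℕ, k ≠ l → ∀ H : ℝ, 1 ≤ H →
    C * (1 + Real.log H) ≤ (min k l : ℕ) →
      ∀ P : MvPolynomial (Fin 3) ℤ, P ≠ 0 → P.totalDegree ≤ D →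
        (∀ α, |((P.coeff α : ℤ) : ℝ)| ≤ H) →
        Real.exp (-(C * (max k l : ℕ))) ≤
          |MvPolynomial.aeval ![Real.pi, ∑' n : ℕ, 1 / ((n : ℝ) + 1) ^ (2 * k + 1),
            ∑' n : ℕ, 1 / ((n : ℝ) + 1) ^ (2 * l + 1)] P| := by
  obtain ⟨C, hC, h⟩ := Pool.Agent.H298Z.pairs (Real.pi : ℂ) Pool.Agent.TH456.TM.measT_pi D
  refine ⟨C, hC, fun k l hkl H hH hmin P hP hPD hPH => ?_⟩
  -- the polynomial as a polynomial in two variables over `ℤ[X]`
  obtain ⟨P', hP'⟩ : ∃ P', P' = rename (_root_.finSuccEquiv 2) P := ⟨_, rfl⟩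
  have hP'0 : P' ≠ 0 := by
    rw [hP']
    intro h0
    apply hP
    exact rename_injective _ (_root_.finSuccEquiv 2).injective (by rw [h0, map_zero])
  have hP'D : P'.totalDegree ≤ D := by
    rw [hP']
    exact (totalDegree_rename_le _ _).trans hPD
  have hP'H : ∀ α, |((P'.coeff α : ℤ) : ℝ)| ≤ H := by
    intro α
    by_cases h0 : P'.coeff α = 0
    · rw [h0]
      simp only [Int.cast_zero, abs_zero]
      linarith
    · rw [hP'] at h0 ⊢
      obtain ⟨u, hu, _⟩ := coeff_rename_ne_zero _ _ _ h0
      rw [← hu, coeff_rename_mapDomain _ (_root_.finSuccEquiv 2).injective]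
      exact hPH u
  have hQ0 : optionEquivRight ℤ (Fin 2) P' ≠ 0 := by
    rwa [Ne, EmbeddingLike.map_eq_zero_iff]
  have hsup : ∀ α j, ((optionEquivRight ℤ (Fin 2) P').coeff α).coeff j ≠ 0 →
      (α.sum fun _ e => e) + j ≤ D := by
    intro α j hαj
    rw [oer_coeff'] at hαj
    have h1 := (le_totalDegree (mem_support_iff.2 hαj)).trans hP'D
    rw [Finsupp.sum_option_index _ _ (by simp) (by simp), Finsupp.some_optionElim,
      Finsupp.optionElim_apply_none] at h1
    omega
  have hQD : (optionEquivRight ℤ (Fin 2) P').totalDegree ≤ D := by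
    rw [totalDegree]
    refine Finset.sup_le fun α hα => ?_
    have h1 : (optionEquivRight ℤ (Fin 2) P').coeff α ≠ 0 := mem_support_iff.1 hα
    have h2 := hsup α _ (Polynomial.leadingCoeff_ne_zero.2 h1)
    omega
  have hQn : ∀ α, ((optionEquivRight ℤ (Fin 2) P').coeff α).natDegree ≤ D := by
    intro α
    rw [Polynomial.natDegree_le_iff_coeff_eq_zero]
    intro j hj
    by_contra hcon
    have := hsup α j hcon
    omega
  have h1 := h k l hkl H hH hmin _ hQ0 hQD hQn (fun α j => by rw [oer_coeff']; exact hP'H _)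
  refine h1.trans (le_of_eq ?_)
  rw [← Real.norm_eq_abs, ← Complex.norm_real, oer_eval, hP', aeval_rename]
  congr 1
  have h2 : (fun o : Option (Fin 2) => o.elim (Real.pi : ℂ) fun i : Fin 2 =>
      ((Pool.Agent.H298Z.zetaValue (![2 * k + 1, 2 * l + 1] i) : ℝ) : ℂ)) ∘
        (_root_.finSuccEquiv 2) =
      (algebraMap ℝ ℂ) ∘ ![Real.pi, ∑' n : ℕ, 1 / ((n : ℝ) + 1) ^ (2 * k + 1),
            ∑' n : ℕ, 1 / ((n : ℝ) + 1) ^ (2 * l + 1)] := by
    funext i
    fin_cases i
    · rfl
    · rfl
    · rfl
  rw [h2, aeval_algebraMap_apply]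
  rfl

end Pool.Agent.H298Z.AllPairs
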