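import Pool.Agent.H298Z.Dir

/-!
# Values of the coefficients and Dirichlet series
-/

set_option autoImplicit false

namespace Pool.Agent.H298Z

open ArithmeticFunction Finset MvPolynomial

section

/-- `n ↦ n ^ e` with values in `ℕ` -/
def pwN (e : ℕ) : ArithmeticFunction ℕ := ⟨fun n => if n = 0 then 0 else n ^ e, by simp⟩

lemma pwN_apply (e n : ℕ) (hn : n ≠ 0) : pwN e n = n ^ e := by simp [pwN, hn]

/-- the integer coefficients -/
noncomputable def cA (m : ℕ) (α : Fin m →₀ ℕ) : ArithmeticFunction ℕ :=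
  ∏ i ∈ α.support, (pwN (ex m i)) ^ (α i)

variable {R : Type*} [CommRing R]

variable (R) in
/-- coercion from `ℕ` -/
def castF (f : ArithmeticFunction ℕ) : ArithmeticFunction R := ⟨fun n => (f n : R), by simp⟩

lemma castF_apply (f : ArithmeticFunction ℕ) (n : ℕ) : castF R f n = (f n : R) := rfl

variable (R) in
/-- coercion from `ℕ`, as a ring homomorphism -/
def castAF : ArithmeticFunction ℕ →+* ArithmeticFunction R where
  toFun f := castF R f
  map_one' := by
    ext n
    rw [castF_apply, ArithmeticFunction.one_apply, ArithmeticFunction.one_apply]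
    split_ifs <;> simp
  map_mul' f g := by
    ext n
    rw [castF_apply, mul_apply, mul_apply]
    push_cast
    rfl
  map_zero' := by
    ext n
    rw [castF_apply]
    simp
  map_add' f g := by
    ext n
    rw [castF_apply, ArithmeticFunction.add_apply, ArithmeticFunction.add_apply]
    push_cast
    rfl

lemma castAF_apply (f : ArithmeticFunction ℕ) (n : ℕ) : castAF R f n = (f n : R) := rfl

lemma castAF_pwN (e : ℕ) : castAF R (pwN e) = pw R e := by
  ext n
  rw [castAF_apply]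
  by_cases hn : n = 0
  · subst hn; simp
  · rw [pwN_apply _ _ hn, pw_apply _ _ hn]
    push_cast
    rfl

lemma sum_apply_AF {ι : Type*} (s : Finset ι) (f : ι → ArithmeticFunction R) (n : ℕ) :
    (∑ i ∈ s, f i) n = ∑ i ∈ s, f i n := by
  classical
  induction s using Finset.induction_on with
  | empty => simp
  | insert a s ha ih =>
    rw [Finset.sum_insert ha, Finset.sum_insert ha, ArithmeticFunction.add_apply, ih]

lemma algebraMap_mul_apply (r : R) (f : ArithmeticFunction R) (n : ℕ) :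
    (algebraMap R (ArithmeticFunction R) r * f) n = r * f n := by
  rw [Algebra.algebraMap_eq_smul_one, smul_mul_assoc, one_mul, smul_map, smul_eq_mul]

theorem Psi_apply (m : ℕ) (P : MvPolynomial (Fin m) R) (n : ℕ) :
    Psi R m P n = ∑ α ∈ P.support, coeff α P * ((cA m α n : ℕ) : R) := by
  unfold Psi
  rw [aeval_def, eval₂_eq, sum_apply_AF]
  refine Finset.sum_congr rfl fun α _ => ?_
  rw [algebraMap_mul_apply, ← castAF_apply]
  congr 2
  unfold cA
  rw [map_prod]
  refine Finset.prod_congr rfl fun i _ => ?_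
  rw [map_pow, castAF_pwN]

/-- growth -/
def Bd (f : ArithmeticFunction ℕ) (x : ℕ) : Prop := ∀ n, 1 ≤ n → f n ≤ n ^ x

lemma Bd_mono {f : ArithmeticFunction ℕ} {x y : ℕ} (h : Bd f x) (hxy : x ≤ y) : Bd f y :=
  fun n hn => (h n hn).trans (Nat.pow_le_pow_right hn hxy)

lemma Bd_one : Bd 1 0 := by
  intro n _
  rw [ArithmeticFunction.one_apply]
  split_ifs <;> simp

lemma Bd_pwN (e : ℕ) : Bd (pwN e) e := fun n hn => (pwN_apply e n (by omega)).le

lemma Bd_mul {f g : ArithmeticFunction ℕ} {x y : ℕ} (hf : Bd f x) (hg : Bd g y) :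
    Bd (f * g) (x + y + 1) := by
  intro n hn
  rw [mul_apply]
  calc ∑ z ∈ n.divisorsAntidiagonal, f z.1 * g z.2
      ≤ ∑ _z ∈ n.divisorsAntidiagonal, n ^ (x + y) := by
        refine Finset.sum_le_sum fun z hz => ?_
        obtain ⟨h1, h2⟩ := Nat.mem_divisorsAntidiagonal.1 hz
        have hz1 : 1 ≤ z.1 := by
          rcases Nat.eq_zero_or_pos z.1 with h | h
          · rw [h, zero_mul] at h1; omega
          · exact h
        have hz2 : 1 ≤ z.2 := by
          rcases Nat.eq_zero_or_pos z.2 with h | h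
          · rw [h, mul_zero] at h1; omega
          · exact h
        have hz3 : z.1 ≤ n := by rw [← h1]; exact Nat.le_mul_of_pos_right _ hz2
        have hz4 : z.2 ≤ n := by rw [← h1]; exact Nat.le_mul_of_pos_left _ hz1
        rw [pow_add]
        exact Nat.mul_le_mul ((hf _ hz1).trans (Nat.pow_le_pow_left hz3 x))
          ((hg _ hz2).trans (Nat.pow_le_pow_left hz4 y))
    _ = n.divisorsAntidiagonal.card * n ^ (x + y) := by rw [Finset.sum_const, smul_eq_mul]
    _ ≤ n * n ^ (x + y) := by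
        refine Nat.mul_le_mul_right _ ?_
        refine le_trans (Finset.card_le_card_of_injOn (t := n.divisors) Prod.fst ?_ ?_)
          (Nat.card_divisors_le_self n)
        · intro z hz
          exact Nat.mem_divisors.2 ⟨⟨z.2, (Nat.mem_divisorsAntidiagonal.1 hz).1.symm⟩,
            (Nat.mem_divisorsAntidiagonal.1 hz).2⟩
        · intro z hz w hw hzw
          have h1 := (Nat.mem_divisorsAntidiagonal.1 hz).1
          have h2 := (Nat.mem_divisorsAntidiagonal.1 hw).1
          have h3 : 0 < z.1 := Nat.pos_of_ne_zero (by rintro h; rw [h, zero_mul] at h1; omega)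
          refine Prod.ext hzw (Nat.eq_of_mul_eq_mul_left h3 ?_)
          rw [h1, hzw, h2]
    _ = n ^ (x + y + 1) := by ring

lemma Bd_pow {f : ArithmeticFunction ℕ} {x : ℕ} (hf : Bd f x) (k : ℕ) :
    Bd (f ^ k) ((x + 1) * k) := by
  induction k with
  | zero => simpa using Bd_one
  | succ k ih =>
    rw [pow_succ]
    exact Bd_mono (Bd_mul ih hf) (by ring_nf; omega)

lemma Bd_prod {ι : Type*} (s : Finset ι) (f : ι → ArithmeticFunction ℕ) (x : ι → ℕ)
    (h : ∀ i ∈ s, Bd (f i) (x i)) : Bd (∏ i ∈ s, f i) (∑ i ∈ s, (x i + 1)) := by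
  classical
  induction s using Finset.induction_on with
  | empty => simpa using Bd_one
  | insert a s ha ih =>
    rw [Finset.prod_insert ha, Finset.sum_insert ha]
    refine Bd_mono (Bd_mul (h a (Finset.mem_insert_self _ _))
      (ih fun i hi => h i (Finset.mem_insert_of_mem hi))) (by omega)

lemma Bd_cA (m D : ℕ) (α : Fin m →₀ ℕ) (hα : (α.sum fun _ e => e) ≤ D) :
    Bd (cA m α) ((2 * m + 1) * D + m) := by
  unfold cA
  refine Bd_mono (Bd_prod α.support _ (fun i => (2 * m + 1) * α i) fun i _ => ?_) ?_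
  · refine Bd_pow (Bd_mono (Bd_pwN _) ?_) _
    unfold ex
    omega
  · rw [Finset.sum_add_distrib, ← Finset.mul_sum]
    have h1 : (∑ i ∈ α.support, α i) ≤ D := hα
    have h2 : ∑ _i ∈ α.support, 1 ≤ m := by
      rw [Finset.sum_const, smul_eq_mul, mul_one]
      exact (Finset.card_le_univ _).trans (by simp)
    have := Nat.mul_le_mul_left (2 * m + 1) h1
    omega

/-- the number of monomials -/
lemma card_support_le (m D : ℕ) (P : MvPolynomial (Fin m) R) (hP : P.totalDegree ≤ D) :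
    P.support.card ≤ (D + 1) ^ m := by
  classical
  have h1 : ∀ α ∈ P.support, ∀ i, α i < D + 1 := by
    intro α hα i
    have h2 := le_totalDegree hα
    have h3 : α i ≤ α.sum fun _ e => e := by
      by_cases hi : α i = 0
      · omega
      · exact Finset.single_le_sum (f := fun i => α i) (fun _ _ => Nat.zero_le _)
          (Finsupp.mem_support_iff.2 hi)
    omega
  have h2 := Finset.card_le_card_of_injOn (s := P.support)
    (t := (Finset.univ : Finset (Fin m → Fin (D + 1))))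
    (fun α i => if h : α i < D + 1 then ⟨α i, h⟩ else 0) (fun α _ => by simp) (by
      intro α hα β hβ hab
      ext i
      have h3 := congrFun hab i
      simp only [h1 α hα i, h1 β hβ i, dif_pos] at h3
      exact congrArg Fin.val h3)
  simpa using h2

end

section

/-- `ζ(t)` for a natural number `t` -/
noncomputable def zetaValue (t : ℕ) : ℝ := ∑' n : ℕ, 1 / ((n : ℝ) + 1) ^ t

open LSeries

lemma hasSum_pw (S e : ℕ) (h : e + 2 ≤ S) :
    LSeriesHasSum (fun n => pw ℂ e n) (S : ℂ) (zetaValue (S - e) : ℂ) := by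
  unfold LSeriesHasSum
  obtain ⟨t, rfl⟩ : ∃ t, S = e + t := ⟨S - e, by omega⟩
  have ht : 1 < t := by omega
  have h1 : Summable fun n : ℕ => 1 / ((n : ℝ) + 1) ^ t := by
    have := (summable_nat_add_iff 1).2 (Real.summable_one_div_nat_pow.2 ht)
    simpa using this
  have h2 : HasSum (fun n : ℕ => 1 / ((n : ℝ) + 1) ^ t) (zetaValue t) := h1.hasSum
  have h3 : HasSum (fun n : ℕ => ((1 / ((n : ℝ) + 1) ^ t : ℝ) : ℂ)) (zetaValue t : ℂ) :=
    Complex.hasSum_ofReal.2 h2
  rw [← hasSum_nat_add_iff' 1, Finset.sum_range_one]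
  have h4 : term (fun n => pw ℂ e n) ((e + t : ℕ) : ℂ) 0 = 0 := by simp
  rw [h4, sub_zero, show e + t - e = t by omega]
  have h6 : (fun n : ℕ => term (fun n => pw ℂ e n) ((e + t : ℕ) : ℂ) (n + 1)) =
      fun n : ℕ => ((1 / ((n : ℝ) + 1) ^ t : ℝ) : ℂ) := by
    funext n
    rw [term_of_ne_zero (by omega), pw_apply _ _ (by omega)]
    have h5 : ((n : ℂ) + 1) ≠ 0 := by exact_mod_cast Nat.succ_ne_zero n
    rw [Complex.cpow_natCast]
    push_cast
    rw [pow_add]
    field_simp
  rw [h6]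
  exact h3

variable {R : Type*} [CommRing R]

/-- image of an arithmetic function under a ring homomorphism -/
def mapF (ev : R →+* ℂ) (f : ArithmeticFunction R) : ArithmeticFunction ℂ :=
  ⟨fun n => ev (f n), by simp⟩

lemma mapF_apply (ev : R →+* ℂ) (f : ArithmeticFunction R) (n : ℕ) : mapF ev f n = ev (f n) := rfl

lemma mapF_mul (ev : R →+* ℂ) (f g : ArithmeticFunction R) :
    mapF ev (f * g) = mapF ev f * mapF ev g := by
  ext n
  rw [mapF_apply, mul_apply, mul_apply, map_sum]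
  refine Finset.sum_congr rfl fun x _ => ?_
  rw [map_mul, mapF_apply, mapF_apply]

/-- the Dirichlet series of a polynomial in the functions `n ↦ n ^ (2 (m - i))` -/
theorem hasSum_Psi (m S : ℕ) (hS : 2 * m + 2 ≤ S) (ev : R →+* ℂ) (P : MvPolynomial (Fin m) R) :
    LSeriesHasSum (fun n => mapF ev (Psi R m P) n) (S : ℂ)
      (eval₂ ev (fun i => (zetaValue (S - ex m i) : ℂ)) P) := by
  induction P using MvPolynomial.induction_on with
  | C a =>
    rw [eval₂_C, Psi_C]
    unfold LSeriesHasSum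
    have h1 : ∀ n, n ≠ 1 → term (fun n => mapF ev (algebraMap R (ArithmeticFunction R) a) n)
        (S : ℂ) n = 0 := by
      intro n hn
      by_cases h0 : n = 0
      · subst h0; simp
      · rw [term_of_ne_zero h0, mapF_apply, algebraMap_apply', if_neg hn]
        simp
    have h2 := hasSum_single 1 h1
    rwa [term_of_ne_zero one_ne_zero, mapF_apply, algebraMap_apply', if_pos rfl, Nat.cast_one,
      Complex.one_cpow, div_one] at h2
  | add P Q hP hQ =>
    rw [eval₂_add]
    have h1 := hP.add hQ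
    convert h1 using 1
    funext n
    rw [Pi.add_apply, mapF_apply, mapF_apply, mapF_apply, map_add, ArithmeticFunction.add_apply,
      map_add]
  | mul_X P i hP =>
    rw [eval₂_mul, eval₂_X, map_mul, Psi_X, mapF_mul]
    refine ArithmeticFunction.LSeriesHasSum_mul hP ?_
    have h1 : mapF ev (pw R (ex m i)) = pw ℂ (ex m i) := by
      ext n
      rw [mapF_apply]
      by_cases hn : n = 0
      · subst hn; simp
      · rw [pw_apply _ _ hn, pw_apply _ _ hn, map_pow, map_natCast]
    rw [h1]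
    refine hasSum_pw S (ex m i) ?_
    unfold ex
    omega

/-- the first nonzero term dominates -/
theorem first_term (a : ℕ → ℂ) (S E n₁ : ℕ) (W : ℝ) (hW : 0 ≤ W) (hn₁ : 1 ≤ n₁) (hS : E + 2 ≤ S)
    (hz : ∀ n < n₁, a n = 0) (hb : ∀ n, n₁ < n → ‖a n‖ ≤ W * (n : ℝ) ^ E) (V : ℂ)
    (hV : LSeriesHasSum a (S : ℂ) V) :
    ‖a n₁‖ / (n₁ : ℝ) ^ S - 2 * W * ((n₁ : ℝ) + 1) ^ (E + 2) / ((n₁ : ℝ) + 1) ^ S ≤ ‖V‖ := by
  have hn0 : (n₁ : ℂ) ≠ 0 := by
    have : n₁ ≠ 0 := by omega
    exact_mod_cast this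
  have h1 : HasSum (fun n => term a (S : ℂ) n - if n = n₁ then term a (S : ℂ) n₁ else 0)
      (V - term a (S : ℂ) n₁) := HasSum.sub hV (hasSum_ite_eq n₁ _)
  have h2 : HasSum (fun n : ℕ => W * ((n₁ : ℝ) + 1) ^ (E + 2) / ((n₁ : ℝ) + 1) ^ S *
      (1 / (n : ℝ) ^ 2)) (W * ((n₁ : ℝ) + 1) ^ (E + 2) / ((n₁ : ℝ) + 1) ^ S * (Real.pi ^ 2 / 6)) :=
    hasSum_zeta_two.mul_left _
  have h3 : ‖V - term a (S : ℂ) n₁‖ ≤
      W * ((n₁ : ℝ) + 1) ^ (E + 2) / ((n₁ : ℝ) + 1) ^ S * (Real.pi ^ 2 / 6) := by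
    refine h1.norm_le_of_bounded h2 fun n => ?_
    rcases lt_trichotomy n n₁ with h | h | h
    · rw [if_neg h.ne, sub_zero]
      have h4 : term a (S : ℂ) n = 0 := by
        by_cases h0 : n = 0
        · subst h0; simp
        · rw [term_of_ne_zero h0, hz n h, zero_div]
      rw [h4, norm_zero]
      positivity
    · subst h
      rw [if_pos rfl, sub_self, norm_zero]
      positivity
    · rw [if_neg h.ne', sub_zero, term_of_ne_zero (by omega), norm_div, Complex.cpow_natCast,
        norm_pow, Complex.norm_natCast]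
      have hn : (0 : ℝ) < n := by
        have : 0 < n := by omega
        exact_mod_cast this
      have hn1 : ((n₁ : ℝ) + 1) ≤ n := by exact_mod_cast h
      obtain ⟨t, rfl⟩ : ∃ t, S = E + 2 + t := ⟨S - (E + 2), by omega⟩
      have h5 : ‖a n‖ / (n : ℝ) ^ (E + 2 + t) ≤ W * (n : ℝ) ^ E / (n : ℝ) ^ (E + 2 + t) := by
        gcongr
        exact hb n h
      refine h5.trans ?_
      have h6 : W * (n : ℝ) ^ E / (n : ℝ) ^ (E + 2 + t) = W * (1 / (n : ℝ) ^ t) * (1 / (n : ℝ) ^ 2) := by
        rw [pow_add, pow_add]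
        field_simp
      have h7 : W * ((n₁ : ℝ) + 1) ^ (E + 2) / ((n₁ : ℝ) + 1) ^ (E + 2 + t) =
          W * (1 / ((n₁ : ℝ) + 1) ^ t) := by
        rw [pow_add _ (E + 2) t]
        field_simp
      rw [h6, h7]
      gcongr
  have h4 : Real.pi ^ 2 / 6 ≤ 2 := by
    have h5 := Real.pi_lt_d2
    have h6 := Real.pi_pos
    nlinarith
  have h5 : ‖term a (S : ℂ) n₁‖ = ‖a n₁‖ / (n₁ : ℝ) ^ S := by
    rw [term_of_ne_zero (by omega), norm_div, Complex.cpow_natCast, norm_pow, Complex.norm_natCast]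
  have h6 : ‖term a (S : ℂ) n₁‖ ≤ ‖V‖ + ‖V - term a (S : ℂ) n₁‖ := by
    have h7 := norm_sub_le V (V - term a (S : ℂ) n₁)
    rwa [sub_sub_cancel] at h7
  have h7 : W * ((n₁ : ℝ) + 1) ^ (E + 2) / ((n₁ : ℝ) + 1) ^ S * (Real.pi ^ 2 / 6) ≤
      2 * W * ((n₁ : ℝ) + 1) ^ (E + 2) / ((n₁ : ℝ) + 1) ^ S := by
    have h8 : 0 ≤ W * ((n₁ : ℝ) + 1) ^ (E + 2) / ((n₁ : ℝ) + 1) ^ S := by positivity
    calc _ ≤ W * ((n₁ : ℝ) + 1) ^ (E + 2) / ((n₁ : ℝ) + 1) ^ S * 2 := by gcongr
      _ = _ := by ring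
  rw [← h5]
  linarith

end

end Pool.Agent.H298Z
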