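import Pool.Agent.H298Z.Ana
import Pool.Agent.TH456.TM.Inst

/-!
# Lower bounds for polynomials in `x` and consecutive odd zeta values
-/

set_option autoImplicit false

namespace Pool.Agent.H298Z

open ArithmeticFunction Finset MvPolynomial
open Pool.Agent.TH456.TM (MeasT measT_pi)

/-- evaluation at `x` -/
noncomputable def evx (x : ℂ) : Polynomial ℤ →+* ℂ :=
  Polynomial.eval₂RingHom (Int.castRingHom ℂ) x

lemma evx_apply (x : ℂ) (P : Polynomial ℤ) : evx x P = Polynomial.aeval x P := by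
  unfold evx
  rw [Polynomial.coe_eval₂RingHom, Polynomial.aeval_def]
  rfl

lemma evx_bound (x : ℂ) (X0 : ℝ) (hX0 : 1 ≤ X0) (hx : ‖x‖ ≤ X0) (D : ℕ) (H : ℝ) (hH : 0 ≤ H)
    (P : Polynomial ℤ) (hD : P.natDegree ≤ D) (hP : ∀ j, |(P.coeff j : ℝ)| ≤ H) :
    ‖evx x P‖ ≤ (D + 1) * X0 ^ D * H := by
  unfold evx
  rw [Polynomial.coe_eval₂RingHom, Polynomial.eval₂_eq_sum_range' _ (Nat.lt_succ_of_le hD)]
  refine (norm_sum_le _ _).trans ?_
  calc ∑ i ∈ Finset.range D.succ, ‖(Int.castRingHom ℂ) (P.coeff i) * x ^ i‖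
      ≤ ∑ _i ∈ Finset.range D.succ, H * X0 ^ D := by
        refine Finset.sum_le_sum fun i hi => ?_
        have hi' : i ≤ D := Nat.lt_succ_iff.1 (Finset.mem_range.1 hi)
        rw [norm_mul, norm_pow]
        have h1 : ‖(Int.castRingHom ℂ) (P.coeff i)‖ ≤ H := by
          rw [eq_intCast, Complex.norm_intCast]
          exact hP i
        have h2 : ‖x‖ ^ i ≤ X0 ^ D :=
          (pow_le_pow_left₀ (norm_nonneg _) hx i).trans (pow_le_pow_right₀ hX0 hi')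
        exact mul_le_mul h1 h2 (by positivity) hH
    _ = (D + 1) * X0 ^ D * H := by
        rw [Finset.sum_const, Finset.card_range, nsmul_eq_mul]
        push_cast
        ring

theorem main (x : ℂ) (hx : MeasT x) (m D : ℕ) : ∃ c θ κ : ℝ, 0 < c ∧ 1 < θ ∧
    ∀ k : ℕ, ∀ P : MvPolynomial (Fin m) (Polynomial ℤ), P ≠ 0 → P.totalDegree ≤ D →
      (∀ α, (P.coeff α).natDegree ≤ D) →
      (∀ α j, |(((P.coeff α).coeff j : ℤ) : ℝ)| ≤ c * θ ^ k) →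
      c * Real.exp (-κ * k) ≤
        ‖eval₂ (evx x) (fun i : Fin m => (zetaValue (2 * (k + i) + 1) : ℂ)) P‖ := by
  obtain ⟨κ0, c0, hκ0, hc0, hmeas⟩ := hx D
  -- constants
  obtain ⟨B, hBdef⟩ : ∃ B, B = Nat.nth Nat.Prime m := ⟨_, rfl⟩
  have hB : 1 ≤ B := by
    rw [hBdef]
    exact (Nat.prime_nth_prime m).one_lt.le
  obtain ⟨X0, hX0def⟩ : ∃ X0 : ℝ, X0 = 1 + ‖x‖ := ⟨_, rfl⟩
  have hX0 : 1 ≤ X0 := by rw [hX0def]; linarith [norm_nonneg x]
  have hxX0 : ‖x‖ ≤ X0 := by rw [hX0def]; linarith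
  obtain ⟨N0, hN0def⟩ : ∃ N0 : ℕ, N0 = B ^ D := ⟨_, rfl⟩
  have hN0 : 1 ≤ N0 := by rw [hN0def]; exact Nat.one_le_pow _ _ hB
  obtain ⟨E, hE⟩ : ∃ E : ℕ, E = (2 * m + 1) * D + m := ⟨_, rfl⟩
  obtain ⟨K, hK⟩ : ∃ K : ℕ, K = ⌈κ0⌉₊ := ⟨_, rfl⟩
  have hκK : κ0 ≤ K := by rw [hK]; exact Nat.le_ceil _
  obtain ⟨A0, hA0⟩ : ∃ A0 : ℝ, A0 = ((D : ℝ) + 1) ^ m := ⟨_, rfl⟩
  have hA0' : 1 ≤ A0 := by
    rw [hA0]
    exact one_le_pow₀ (by linarith [Nat.cast_nonneg (α := ℝ) D])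
  have hN0r : (1 : ℝ) ≤ N0 := by exact_mod_cast hN0
  obtain ⟨A1, hA1⟩ : ∃ A1 : ℝ, A1 = A0 * (N0 : ℝ) ^ E := ⟨_, rfl⟩
  have hA1' : 1 ≤ A1 := by
    rw [hA1]
    exact one_le_mul_of_one_le_of_one_le hA0' (one_le_pow₀ hN0r)
  obtain ⟨W0, hW0⟩ : ∃ W0 : ℝ, W0 = A0 * ((D + 1) * X0 ^ D) := ⟨_, rfl⟩
  have hW0' : 0 < W0 := by
    rw [hW0]
    positivity
  obtain ⟨C2, hC2⟩ : ∃ C2 : ℝ, C2 = 4 * W0 * ((N0 : ℝ) + 1) ^ (E + 2) * A1 ^ K / c0 := ⟨_, rfl⟩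
  have hC2' : 0 < C2 := by
    rw [hC2]
    positivity
  obtain ⟨ρ, hρ⟩ : ∃ ρ : ℝ, ρ = 1 + 1 / (N0 : ℝ) := ⟨_, rfl⟩
  have hρ1 : 1 < ρ := by
    rw [hρ]
    have : (0 : ℝ) < 1 / N0 := by positivity
    linarith
  obtain ⟨θ, hθ⟩ : ∃ θ : ℝ, θ = (ρ ^ 2) ^ ((((K + 1 : ℕ)) : ℝ)⁻¹) := ⟨_, rfl⟩
  have hθ1 : 1 < θ := by
    rw [hθ]
    exact Real.one_lt_rpow (one_lt_pow₀ hρ1 two_ne_zero) (by positivity)
  have hθK : θ ^ (K + 1) = ρ ^ 2 := by
    rw [hθ]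
    exact Real.rpow_inv_natCast_pow (by positivity) (by omega)
  have hθ0 : 0 < θ := by linarith
  obtain ⟨k0, hk0⟩ : ∃ k0 : ℕ, k0 = E + 2 := ⟨_, rfl⟩
  obtain ⟨C3, hC3⟩ : ∃ C3 : ℝ, C3 = (1 / 2) * c0 / (A1 ^ K * (N0 : ℝ) ^ (1 + 2 * m)) := ⟨_, rfl⟩
  have hC3' : 0 < C3 := by
    rw [hC3]
    positivity
  obtain ⟨c, hc⟩ : ∃ c : ℝ, c = min (1 / (2 * θ ^ k0)) (min (1 / (1 + C2)) C3) := ⟨_, rfl⟩
  have hcpos : 0 < c := by
    rw [hc]
    refine lt_min (by positivity) (lt_min (by positivity) hC3')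
  have hc1 : c ≤ 1 / (2 * θ ^ k0) := by rw [hc]; exact min_le_left _ _
  have hc2 : c ≤ 1 / (1 + C2) := by rw [hc]; exact (min_le_right _ _).trans (min_le_left _ _)
  have hc3 : c ≤ C3 := by rw [hc]; exact (min_le_right _ _).trans (min_le_right _ _)
  have hc4 : c ≤ 1 := hc2.trans (by
    rw [div_le_one (by positivity)]
    linarith)
  refine ⟨c, θ, Real.log (θ ^ K * (N0 : ℝ) ^ 2), hcpos, hθ1, fun k P hP hPD hPn hPH => ?_⟩
  obtain ⟨H, hH⟩ : ∃ H : ℝ, H = c * θ ^ k := ⟨_, rfl⟩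
  rw [← hH] at hPH
  have hHpos : 0 < H := by rw [hH]; positivity
  -- `H ≥ 1`
  have hH1 : 1 ≤ H := by
    obtain ⟨α, hα⟩ := MvPolynomial.exists_coeff_ne_zero hP
    have h2 : (P.coeff α).leadingCoeff ≠ 0 := Polynomial.leadingCoeff_ne_zero.2 hα
    have h3 := hPH α (P.coeff α).natDegree
    have h4 : (1 : ℤ) ≤ |(P.coeff α).coeff (P.coeff α).natDegree| := Int.one_le_abs h2
    have h5 : (1 : ℝ) ≤ |(((P.coeff α).coeff (P.coeff α).natDegree : ℤ) : ℝ)| := by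
      exact_mod_cast h4
    linarith
  have hkk : k0 ≤ k := by
    by_contra hcon
    push Not at hcon
    have h1 : θ ^ k ≤ θ ^ k0 := pow_le_pow_right₀ hθ1.le hcon.le
    have h2 : H ≤ 1 / 2 := by
      rw [hH]
      calc c * θ ^ k ≤ 1 / (2 * θ ^ k0) * θ ^ k0 := by gcongr
        _ = 1 / 2 := by field_simp
    linarith
  -- the first non vanishing coefficient
  obtain ⟨N, hN1, hNN, hNne⟩ := exists_ne (R := Polynomial ℤ) m B hB
    (fun i => Nat.nth Nat.Prime i) (fun i => Nat.prime_nth_prime i)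
    (fun i j hij => Fin.ext (Nat.nth_injective Nat.infinite_setOfPred_prime hij))
    (fun i => by
      rw [hBdef]
      exact (Nat.nth_strictMono Nat.infinite_setOfPred_prime i.2).le) D P hP hPD
  classical
  have hex : ∃ n, Psi (Polynomial ℤ) m P n ≠ 0 := ⟨N, hNne⟩
  obtain ⟨n₁, hn₁⟩ : ∃ n, n = Nat.find hex := ⟨_, rfl⟩
  have hn₁ne : Psi (Polynomial ℤ) m P n₁ ≠ 0 := by rw [hn₁]; exact Nat.find_spec hex
  have hn₁min : ∀ a < n₁, Psi (Polynomial ℤ) m P a = 0 := by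
    intro a ha
    rw [hn₁] at ha
    have := Nat.find_min hex ha
    push Not at this
    exact this
  have hn₁N : n₁ ≤ N0 := by
    rw [hn₁, hN0def]
    exact (Nat.find_min' hex hNne).trans hNN
  have hn₁1 : 1 ≤ n₁ := by
    rcases Nat.eq_zero_or_pos n₁ with h | h
    · exfalso
      rw [h] at hn₁ne
      exact hn₁ne ArithmeticFunction.map_zero
    · exact h
  have hn₁r : (1 : ℝ) ≤ n₁ := by exact_mod_cast hn₁1
  have hn₁Nr : (n₁ : ℝ) ≤ N0 := by exact_mod_cast hn₁N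
  have hcard : (P.support.card : ℝ) ≤ A0 := by
    rw [hA0]
    exact_mod_cast card_support_le m D P hPD
  have hcAb : ∀ α ∈ P.support, ∀ n, 1 ≤ n → (cA m α n : ℝ) ≤ (n : ℝ) ^ E := by
    intro α hα n hn
    have h1 := Bd_cA m D α ((le_totalDegree hα).trans hPD) n hn
    rw [← hE] at h1
    exact_mod_cast h1
  -- the coefficient
  obtain ⟨q, hq⟩ : ∃ q, q = Psi (Polynomial ℤ) m P n₁ := ⟨_, rfl⟩
  have hqne : q ≠ 0 := by rw [hq]; exact hn₁ne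
  have hqsum : q = ∑ α ∈ P.support, coeff α P * ((cA m α n₁ : ℕ) : Polynomial ℤ) := by
    rw [hq, Psi_apply]
  have hqD : q.natDegree ≤ D := by
    rw [hqsum]
    refine Polynomial.natDegree_sum_le_of_forall_le _ _ fun α _ => ?_
    refine (Polynomial.natDegree_mul_le).trans ?_
    rw [Polynomial.natDegree_natCast, add_zero]
    exact hPn α
  have hqH : ∀ j, |(q.coeff j : ℝ)| ≤ A1 * H := by
    intro j
    rw [hqsum, Polynomial.finsetSum_coeff]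
    push_cast
    calc |∑ α ∈ P.support, (((coeff α P * ((cA m α n₁ : ℕ) : Polynomial ℤ)).coeff j : ℤ) : ℝ)|
        ≤ ∑ α ∈ P.support, |(((coeff α P * ((cA m α n₁ : ℕ) : Polynomial ℤ)).coeff j : ℤ) : ℝ)| :=
          Finset.abs_sum_le_sum_abs _ _
      _ ≤ ∑ _α ∈ P.support, H * (N0 : ℝ) ^ E := by
          refine Finset.sum_le_sum fun α hα => ?_
          rw [Polynomial.coeff_mul_natCast]
          push_cast
          rw [abs_mul, Nat.abs_cast]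
          refine mul_le_mul (hPH α j) ((hcAb α hα n₁ hn₁1).trans ?_) (by positivity) hHpos.le
          exact pow_le_pow_left₀ (by positivity) hn₁Nr E
      _ = P.support.card * (H * (N0 : ℝ) ^ E) := by rw [Finset.sum_const, nsmul_eq_mul]
      _ ≤ A0 * (H * (N0 : ℝ) ^ E) := by gcongr
      _ = A1 * H := by rw [hA1]; ring
  have hA1H : 1 ≤ A1 * H := one_le_mul_of_one_le_of_one_le hA1' hH1
  have hlow : c0 ≤ (A1 * H) ^ K * ‖evx x q‖ := by
    have h1 := hmeas q hqne hqD (A1 * H) hA1H hqH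
    rw [← evx_apply] at h1
    refine h1.trans ?_
    gcongr
    rw [← Real.rpow_natCast]
    exact Real.rpow_le_rpow_of_exponent_le hA1H hκK
  -- the tail
  have htail : ∀ n, n₁ < n → ‖mapF (evx x) (Psi (Polynomial ℤ) m P) n‖ ≤ (W0 * H) * (n : ℝ) ^ E := by
    intro n hn
    rw [mapF_apply, Psi_apply, map_sum]
    refine (norm_sum_le _ _).trans ?_
    calc ∑ α ∈ P.support, ‖evx x (coeff α P * ((cA m α n : ℕ) : Polynomial ℤ))‖
        ≤ ∑ _α ∈ P.support, ((D + 1) * X0 ^ D * H) * (n : ℝ) ^ E := by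
          refine Finset.sum_le_sum fun α hα => ?_
          rw [map_mul, map_natCast, norm_mul, Complex.norm_natCast]
          refine mul_le_mul (evx_bound x X0 hX0 hxX0 D H hHpos.le _ (hPn α) (hPH α))
            (hcAb α hα n (by omega)) (by positivity) (by positivity)
      _ = P.support.card * (((D + 1) * X0 ^ D * H) * (n : ℝ) ^ E) := by
          rw [Finset.sum_const, nsmul_eq_mul]
      _ ≤ A0 * (((D + 1) * X0 ^ D * H) * (n : ℝ) ^ E) := by gcongr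
      _ = (W0 * H) * (n : ℝ) ^ E := by rw [hW0]; ring
  obtain ⟨S, hS⟩ : ∃ S : ℕ, S = 2 * k + 1 + 2 * m := ⟨_, rfl⟩
  obtain ⟨V, hV⟩ : ∃ V : ℂ, V = eval₂ (evx x) (fun i : Fin m => (zetaValue (2 * (k + i) + 1) : ℂ)) P :=
    ⟨_, rfl⟩
  have hsum : LSeriesHasSum (fun n => mapF (evx x) (Psi (Polynomial ℤ) m P) n) (S : ℂ) V := by
    have h1 := hasSum_Psi m S (by omega) (evx x) P
    have h2 : (fun i : Fin m => (zetaValue (S - ex m i) : ℂ)) =
        fun i : Fin m => (zetaValue (2 * (k + i) + 1) : ℂ) := by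
      funext i
      have h3 : S - ex m i = 2 * (k + i) + 1 := by
        unfold ex
        have := i.2
        omega
      rw [h3]
    rw [h2, ← hV] at h1
    exact h1
  have hft := first_term (fun n => mapF (evx x) (Psi (Polynomial ℤ) m P) n) S E n₁ (W0 * H)
    (by positivity) hn₁1 (by omega) (fun n hn => by
      rw [mapF_apply, hn₁min n hn, _root_.map_zero]) htail V hsum
  have hq2 : mapF (evx x) (Psi (Polynomial ℤ) m P) n₁ = evx x q := by rw [mapF_apply, hq]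
  rw [hq2] at hft
  rw [← hV]
  -- main inequality
  have hkey : 4 * (W0 * H) * ((n₁ : ℝ) + 1) ^ (E + 2) * (A1 * H) ^ K / c0 * (n₁ : ℝ) ^ S ≤
      ((n₁ : ℝ) + 1) ^ S := by
    have h1 : ρ * n₁ ≤ (n₁ : ℝ) + 1 := by
      rw [hρ, add_mul, one_mul]
      have : 1 / (N0 : ℝ) * n₁ ≤ 1 := by
        rw [div_mul_eq_mul_div, one_mul, div_le_one (by positivity)]
        exact hn₁Nr
      linarith
    have h2 : 4 * (W0 * H) * ((n₁ : ℝ) + 1) ^ (E + 2) * (A1 * H) ^ K / c0 ≤ ρ ^ S := by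
      calc 4 * (W0 * H) * ((n₁ : ℝ) + 1) ^ (E + 2) * (A1 * H) ^ K / c0
          ≤ 4 * (W0 * H) * ((N0 : ℝ) + 1) ^ (E + 2) * (A1 * H) ^ K / c0 := by gcongr
        _ = C2 * H ^ (K + 1) := by
            rw [hC2, mul_pow, pow_succ H K]
            ring
        _ = C2 * c ^ (K + 1) * (ρ ^ 2) ^ k := by
            rw [hH, mul_pow, ← hθK, ← pow_mul, ← pow_mul, mul_comm k (K + 1)]
            ring
        _ ≤ 1 * (ρ ^ 2) ^ k := by
            have h3 : C2 * c ^ (K + 1) ≤ 1 := by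
              calc C2 * c ^ (K + 1) ≤ C2 * c := by
                    gcongr
                    exact pow_le_of_le_one hcpos.le hc4 (by omega)
                _ ≤ C2 * (1 / (1 + C2)) := by gcongr
                _ ≤ 1 := by
                    rw [mul_one_div, div_le_one (by positivity)]
                    linarith
            gcongr
        _ = ρ ^ (2 * k) := by rw [one_mul, ← pow_mul]
        _ ≤ ρ ^ S := pow_le_pow_right₀ hρ1.le (by omega)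
    calc _ ≤ ρ ^ S * (n₁ : ℝ) ^ S := by gcongr
      _ = (ρ * n₁) ^ S := by rw [mul_pow]
      _ ≤ ((n₁ : ℝ) + 1) ^ S := pow_le_pow_left₀ (by positivity) h1 S
  have hq3 : c0 / (A1 * H) ^ K ≤ ‖evx x q‖ := by
    rw [div_le_iff₀ (by positivity)]
    linarith [mul_comm ((A1 * H) ^ K) ‖evx x q‖]
  have hhalf : 2 * (W0 * H) * ((n₁ : ℝ) + 1) ^ (E + 2) / ((n₁ : ℝ) + 1) ^ S ≤
      (1 / 2) * (‖evx x q‖ / (n₁ : ℝ) ^ S) := by
    have h1 : 2 * (W0 * H) * ((n₁ : ℝ) + 1) ^ (E + 2) / ((n₁ : ℝ) + 1) ^ S ≤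
        (1 / 2) * (c0 / (A1 * H) ^ K / (n₁ : ℝ) ^ S) := by
      rw [div_le_iff₀ (by positivity)]
      have h2 : 4 * (W0 * H) * ((n₁ : ℝ) + 1) ^ (E + 2) ≤
          c0 / (A1 * H) ^ K / (n₁ : ℝ) ^ S * ((n₁ : ℝ) + 1) ^ S := by
        calc 4 * (W0 * H) * ((n₁ : ℝ) + 1) ^ (E + 2) =
              c0 / (A1 * H) ^ K / (n₁ : ℝ) ^ S * (4 * (W0 * H) * ((n₁ : ℝ) + 1) ^ (E + 2) *
                (A1 * H) ^ K / c0 * (n₁ : ℝ) ^ S) := by
                field_simp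
          _ ≤ _ := by gcongr
      linarith
    refine h1.trans ?_
    gcongr
  have hfin : (1 / 2) * (c0 / (A1 * H) ^ K / (N0 : ℝ) ^ S) ≤ ‖V‖ := by
    have h1 : (1 / 2) * (c0 / (A1 * H) ^ K / (N0 : ℝ) ^ S) ≤ (1 / 2) * (‖evx x q‖ / (n₁ : ℝ) ^ S) := by
      gcongr
    linarith
  refine le_trans ?_ hfin
  -- the final estimate
  have h1 : Real.exp (-Real.log (θ ^ K * (N0 : ℝ) ^ 2) * k) = 1 / (θ ^ K * (N0 : ℝ) ^ 2) ^ k := by
    rw [neg_mul, Real.exp_neg, mul_comm, Real.exp_nat_mul, Real.exp_log (by positivity), one_div]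
  rw [h1]
  have h2 : (1 / 2) * (c0 / (A1 * H) ^ K / (N0 : ℝ) ^ S) =
      C3 * (1 / ((c ^ K) * (θ ^ K * (N0 : ℝ) ^ 2) ^ k)) := by
    rw [hC3, hH, hS, mul_pow, mul_pow, mul_pow, ← pow_mul, ← pow_mul, ← pow_mul, mul_comm k K,
      show 2 * k + 1 + 2 * m = (1 + 2 * m) + 2 * k by ring, pow_add]
    field_simp
  rw [h2]
  have h3 : c ^ K ≤ 1 := pow_le_one₀ hcpos.le hc4
  calc c * (1 / (θ ^ K * (N0 : ℝ) ^ 2) ^ k) ≤ C3 * (1 / (θ ^ K * (N0 : ℝ) ^ 2) ^ k) := by gcongr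
    _ ≤ C3 * (1 / ((c ^ K) * (θ ^ K * (N0 : ℝ) ^ 2) ^ k)) := by
        gcongr
        calc c ^ K * (θ ^ K * (N0 : ℝ) ^ 2) ^ k ≤ 1 * (θ ^ K * (N0 : ℝ) ^ 2) ^ k := by gcongr
          _ = _ := one_mul _

end Pool.Agent.H298Z
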