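import Pool.Agent.H298Z.Dir2
import Pool.Agent.H298Z.Main

/-!
# Dirichlet series of polynomials in functions supported on powers
-/

set_option autoImplicit false

namespace Pool.Agent.H298Z

open ArithmeticFunction Finset MvPolynomial
open Pool.Agent.TH456.TM (MeasT measT_pi)

section

variable {R : Type*} [CommRing R]

lemma castAF_pwr (v e : ℕ) : castAF R (pwr ℕ v e) = pwr R v e := by
  ext n
  rw [castAF_apply, pwr_apply, pwr_apply]
  push_cast
  rfl

lemma mapF_pwr (ev : R →+* ℂ) (v e : ℕ) : mapF ev (pwr R v e) = pwr ℂ v e := by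
  ext n
  rw [mapF_apply, pwr_apply, pwr_apply, map_sum]
  refine Finset.sum_congr rfl fun N _ => ?_
  split_ifs
  · rw [map_pow, map_natCast]
  · rw [_root_.map_zero]

/-- the integer coefficients -/
noncomputable def cA2 {m : ℕ} (v e : Fin m → ℕ) (α : Fin m →₀ ℕ) : ArithmeticFunction ℕ :=
  ∏ i ∈ α.support, (pwr ℕ (v i) (e i)) ^ (α i)

theorem Psi2_apply {m : ℕ} (v e : Fin m → ℕ) (P : MvPolynomial (Fin m) R) (n : ℕ) :
    (aeval (fun i => pwr R (v i) (e i)) P) n =
      ∑ α ∈ P.support, coeff α P * ((cA2 v e α n : ℕ) : R) := by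
  rw [aeval_def, eval₂_eq, sum_apply_AF]
  refine Finset.sum_congr rfl fun α _ => ?_
  rw [algebraMap_mul_apply, ← castAF_apply]
  congr 2
  unfold cA2
  rw [map_prod]
  refine Finset.prod_congr rfl fun i _ => ?_
  rw [map_pow, castAF_pwr]

lemma Bd_pwr (v e : ℕ) (hv : 1 ≤ v) : Bd (pwr ℕ v e) e := by
  intro n hn
  by_cases h : ∃ N, 1 ≤ N ∧ N ^ v = n
  · obtain ⟨N, hN, rfl⟩ := h
    rw [pwr_pow v e N hv hN]
    exact Nat.pow_le_pow_left (Nat.le_self_pow (by omega) N) e
  · rw [pwr_eq_zero v e n (fun N hN hNn => h ⟨N, hN, hNn⟩)]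
    exact Nat.zero_le _

lemma Bd_cA2 {m : ℕ} (v e : Fin m → ℕ) (hv : ∀ i, 1 ≤ v i) (L D : ℕ) (he : ∀ i, e i ≤ L)
    (α : Fin m →₀ ℕ) (hα : (α.sum fun _ e => e) ≤ D) : Bd (cA2 v e α) ((L + 1) * D + m) := by
  unfold cA2
  refine Bd_mono (Bd_prod α.support _ (fun i => (L + 1) * α i) fun i _ => ?_) ?_
  · exact Bd_pow (Bd_mono (Bd_pwr _ _ (hv i)) (he i)) _
  · rw [Finset.sum_add_distrib, ← Finset.mul_sum]
    have h1 : (∑ i ∈ α.support, α i) ≤ D := hα
    have h2 : ∑ _i ∈ α.support, 1 ≤ m := by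
      rw [Finset.sum_const, smul_eq_mul, mul_one]
      exact (Finset.card_le_univ _).trans (by simp)
    have := Nat.mul_le_mul_left (L + 1) h1
    omega

open LSeries

lemma hasSum_pwr (v e τ : ℕ) (hv : 1 ≤ v) (h : e + 2 ≤ v * τ) :
    LSeriesHasSum (fun n => pwr ℂ v e n) (τ : ℂ) (zetaValue (v * τ - e) : ℂ) := by
  unfold LSeriesHasSum
  have hg : Function.Injective fun N : ℕ => (N + 1) ^ v := by
    intro a b hab
    have := Nat.pow_left_injective (n := v) (by omega) hab
    omega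
  rw [← hg.hasSum_iff]
  · have h1 : Summable fun n : ℕ => 1 / ((n : ℝ) + 1) ^ (v * τ - e) := by
      have := (summable_nat_add_iff 1).2 (Real.summable_one_div_nat_pow.2 (show 1 < v * τ - e by omega))
      simpa using this
    have h2 : HasSum (fun n : ℕ => 1 / ((n : ℝ) + 1) ^ (v * τ - e)) (zetaValue (v * τ - e)) :=
      h1.hasSum
    have h3 : HasSum (fun n : ℕ => ((1 / ((n : ℝ) + 1) ^ (v * τ - e) : ℝ) : ℂ))
        (zetaValue (v * τ - e) : ℂ) := Complex.hasSum_ofReal.2 h2
    have h6 : ((fun n => term (fun n => pwr ℂ v e n) (τ : ℂ) n) ∘ fun N : ℕ => (N + 1) ^ v) =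
        fun n : ℕ => ((1 / ((n : ℝ) + 1) ^ (v * τ - e) : ℝ) : ℂ) := by
      funext n
      have hn0 : (n + 1) ^ v ≠ 0 := by positivity
      rw [Function.comp_apply, term_of_ne_zero hn0, pwr_pow v e (n + 1) hv (by omega),
        Complex.cpow_natCast]
      obtain ⟨t, ht⟩ : ∃ t, v * τ = e + t := ⟨v * τ - e, by omega⟩
      have h5 : ((n : ℂ) + 1) ≠ 0 := by exact_mod_cast Nat.succ_ne_zero n
      rw [ht, show e + t - e = t by omega]
      push_cast
      rw [← pow_mul, ht, pow_add]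
      field_simp
    rw [h6]
    exact h3
  · intro n hn
    by_cases h0 : n = 0
    · subst h0; simp
    · rw [term_of_ne_zero h0, pwr_eq_zero v e n, zero_div]
      intro N hN hNn
      apply hn
      refine ⟨N - 1, ?_⟩
      simp only
      rw [Nat.sub_add_cancel hN]
      exact hNn

theorem hasSum_Psi2 {m : ℕ} (v e : Fin m → ℕ) (τ : ℕ) (hv : ∀ i, 1 ≤ v i)
    (h : ∀ i, e i + 2 ≤ v i * τ) (ev : R →+* ℂ) (P : MvPolynomial (Fin m) R) :
    LSeriesHasSum (fun n => mapF ev (aeval (fun i => pwr R (v i) (e i)) P) n) (τ : ℂ)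
      (eval₂ ev (fun i => (zetaValue (v i * τ - e i) : ℂ)) P) := by
  induction P using MvPolynomial.induction_on with
  | C a =>
    rw [eval₂_C, show aeval (fun i => pwr R (v i) (e i)) (C a) =
      algebraMap R (ArithmeticFunction R) a from MvPolynomial.algHom_C _ a]
    unfold LSeriesHasSum
    have h1 : ∀ n, n ≠ 1 → term (fun n => mapF ev (algebraMap R (ArithmeticFunction R) a) n)
        (τ : ℂ) n = 0 := by
      intro n hn
      by_cases h0 : n = 0
      · subst h0; simp
      · rw [term_of_ne_zero h0, mapF_apply, algebraMap_apply', if_neg hn]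
        simp
    have h2 := hasSum_single 1 h1
    rwa [term_of_ne_zero one_ne_zero, mapF_apply, algebraMap_apply', if_pos rfl, Nat.cast_one,
      Complex.one_cpow, div_one] at h2
  | add P Q hP hQ =>
    rw [eval₂_add]
    have h1 := hP.add hQ
    convert h1 using 1
    funext n
    rw [Pi.add_apply, mapF_apply, mapF_apply, mapF_apply, map_add, ArithmeticFunction.add_apply,
      map_add]
  | mul_X P i hP =>
    rw [eval₂_mul, eval₂_X, map_mul, aeval_X, mapF_mul, mapF_pwr]
    exact ArithmeticFunction.LSeriesHasSum_mul hP (hasSum_pwr (v i) (e i) τ (hv i) (h i))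

end

end Pool.Agent.H298Z
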