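import Pool.Agent.H298Z.Ana2

/-!
# Two zeta values whose arguments are close to a fixed rational proportion
-/

set_option autoImplicit false

namespace Pool.Agent.H298Z

open ArithmeticFunction Finset MvPolynomial
open Pool.Agent.TH456.TM (MeasT measT_pi)

theorem collide (x : ℂ) (hx : MeasT x) (D : ℕ) : ∃ C b : ℝ, 0 < C ∧ 0 < b ∧
    ∀ (v e : Fin 2 → ℕ) (L τ : ℕ) (H : ℝ), (∀ i, 1 ≤ v i) → (∀ i, v i ≤ D) →
      (v 0 ≠ v 1 ∨ e 0 ≠ e 1) → (∀ i, e i ≤ L) → 1 ≤ H → C * (1 + Real.log H + L) ≤ τ →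
      ∀ P : MvPolynomial (Fin 2) (Polynomial ℤ), P ≠ 0 → P.totalDegree ≤ D →
        (∀ α, (P.coeff α).natDegree ≤ D) → (∀ α j, |(((P.coeff α).coeff j : ℤ) : ℝ)| ≤ H) →
        Real.exp (-(b * τ)) ≤
          ‖eval₂ (evx x) (fun i : Fin 2 => (zetaValue (v i * τ - e i) : ℂ)) P‖ := by
  obtain ⟨κ0, c0, hκ0, hc0, hmeas⟩ := hx D
  obtain ⟨B, hB1, hB⟩ := exists_ne2 (R := Polynomial ℤ) D D
  obtain ⟨X0, hX0def⟩ : ∃ X0 : ℝ, X0 = 1 + ‖x‖ := ⟨_, rfl⟩
  have hX0 : 1 ≤ X0 := by rw [hX0def]; linarith [norm_nonneg x]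
  have hxX0 : ‖x‖ ≤ X0 := by rw [hX0def]; linarith
  obtain ⟨K, hK⟩ : ∃ K : ℕ, K = ⌈κ0⌉₊ := ⟨_, rfl⟩
  have hκK : κ0 ≤ K := by rw [hK]; exact Nat.le_ceil _
  obtain ⟨A0, hA0⟩ : ∃ A0 : ℝ, A0 = ((D : ℝ) + 1) ^ 2 := ⟨_, rfl⟩
  have hA0' : 1 ≤ A0 := by
    rw [hA0]
    exact one_le_pow₀ (by linarith [Nat.cast_nonneg (α := ℝ) D])
  have hBr : (1 : ℝ) ≤ B := by exact_mod_cast hB1
  obtain ⟨W0, hW0⟩ : ∃ W0 : ℝ, W0 = A0 * ((D + 1) * X0 ^ D) := ⟨_, rfl⟩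
  have hW0' : 1 ≤ W0 := by
    rw [hW0]
    refine one_le_mul_of_one_le_of_one_le hA0' (one_le_mul_of_one_le_of_one_le ?_ (one_le_pow₀ hX0))
    linarith [Nat.cast_nonneg (α := ℝ) D]
  obtain ⟨ρ, hρ⟩ : ∃ ρ : ℝ, ρ = 1 + 1 / (B : ℝ) := ⟨_, rfl⟩
  have hρ1 : 1 < ρ := by
    rw [hρ]
    have : (0 : ℝ) < 1 / B := by positivity
    linarith
  obtain ⟨b, hb⟩ : ∃ b : ℝ, b = Real.log ((B : ℝ) + 1) := ⟨_, rfl⟩
  have hb0 : 0 < b := by rw [hb]; exact Real.log_pos (by linarith)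
  obtain ⟨a1, ha1⟩ : ∃ a1 : ℝ, a1 = 4 * W0 * A0 ^ K / c0 := ⟨_, rfl⟩
  have ha1' : 0 < a1 := by rw [ha1]; positivity
  obtain ⟨C1, hC1⟩ : ∃ C1 : ℝ, C1 = |Real.log a1| + (K + 1) + (D + 4) * (K + 1) * b := ⟨_, rfl⟩
  have hC1' : 0 < C1 := by rw [hC1]; positivity
  have hlogρ : 0 < Real.log ρ := Real.log_pos hρ1
  refine ⟨C1 / Real.log ρ + (D + 6), b, by positivity, hb0, ?_⟩
  intro v e L τ H hv hvD hne heL hH1 hτ P hP hPD hPn hPH
  have hHpos : 0 < H := by linarith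
  have hlogH : 0 ≤ Real.log H := Real.log_nonneg hH1
  obtain ⟨E, hE⟩ : ∃ E : ℕ, E = (L + 1) * D + 2 := ⟨_, rfl⟩
  -- `τ` is large
  have hτ1 : C1 * (1 + Real.log H + L) ≤ τ * Real.log ρ := by
    have h1 : C1 / Real.log ρ * (1 + Real.log H + L) ≤ τ := by
      refine le_trans ?_ hτ
      gcongr
      linarith [Nat.cast_nonneg (α := ℝ) D]
    calc C1 * (1 + Real.log H + L) = (C1 / Real.log ρ * (1 + Real.log H + L)) * Real.log ρ := by
          field_simp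
      _ ≤ τ * Real.log ρ := by gcongr
  have hτ2 : E + 2 ≤ τ := by
    have h1 : ((D : ℝ) + 6) * (1 + L) ≤ τ := by
      refine le_trans ?_ hτ
      have h2 : (0 : ℝ) ≤ C1 / Real.log ρ := by positivity
      have h3 : (0 : ℝ) ≤ (L : ℝ) := Nat.cast_nonneg _
      nlinarith [mul_nonneg h2 (by linarith : (0 : ℝ) ≤ 1 + Real.log H + L),
        mul_nonneg (by positivity : (0 : ℝ) ≤ (D : ℝ) + 6) hlogH]
    have h2 : (D + 6) * (1 + L) ≤ τ := by exact_mod_cast h1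
    have h3 : E + 2 ≤ (D + 6) * (1 + L) := by
      rw [hE]
      nlinarith
    omega
  -- the first non vanishing coefficient
  obtain ⟨N, hN1, hNB, hNne⟩ := hB v e hv hvD hne P hP hPD
  obtain ⟨n₁, hn₁1, hn₁N, hn₁ne, hn₁min⟩ := exists_min_val _ N hNne
  have hn₁B : n₁ ≤ B := hn₁N.trans hNB
  have hn₁r : (1 : ℝ) ≤ n₁ := by exact_mod_cast hn₁1
  have hn₁Br : (n₁ : ℝ) ≤ B := by exact_mod_cast hn₁B
  have hcard : (P.support.card : ℝ) ≤ A0 := by
    rw [hA0]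
    exact_mod_cast card_support_le 2 D P hPD
  have hcAb : ∀ α ∈ P.support, ∀ n, 1 ≤ n → (cA2 v e α n : ℝ) ≤ (n : ℝ) ^ E := by
    intro α hα n hn
    have h1 := Bd_cA2 v e hv L D heL α ((le_totalDegree hα).trans hPD) n hn
    rw [← hE] at h1
    exact_mod_cast h1
  obtain ⟨q, hq⟩ : ∃ q, q = aeval (fun i => pwr (Polynomial ℤ) (v i) (e i)) P n₁ := ⟨_, rfl⟩
  have hqne : q ≠ 0 := by rw [hq]; exact hn₁ne
  have hqsum : q = ∑ α ∈ P.support, coeff α P * ((cA2 v e α n₁ : ℕ) : Polynomial ℤ) := by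
    rw [hq, Psi2_apply]
  have hqD : q.natDegree ≤ D := by
    rw [hqsum]
    refine Polynomial.natDegree_sum_le_of_forall_le _ _ fun α _ => ?_
    refine (Polynomial.natDegree_mul_le).trans ?_
    rw [Polynomial.natDegree_natCast, add_zero]
    exact hPn α
  obtain ⟨H1, hH1def⟩ : ∃ H1 : ℝ, H1 = A0 * H * (B : ℝ) ^ E := ⟨_, rfl⟩
  have hH1' : 1 ≤ H1 := by
    rw [hH1def]
    exact one_le_mul_of_one_le_of_one_le (one_le_mul_of_one_le_of_one_le hA0' hH1) (one_le_pow₀ hBr)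
  have hqH : ∀ j, |(q.coeff j : ℝ)| ≤ H1 := by
    intro j
    rw [hqsum, Polynomial.finsetSum_coeff]
    push_cast
    calc |∑ α ∈ P.support, (((coeff α P * ((cA2 v e α n₁ : ℕ) : Polynomial ℤ)).coeff j : ℤ) : ℝ)|
        ≤ ∑ α ∈ P.support, |(((coeff α P * ((cA2 v e α n₁ : ℕ) : Polynomial ℤ)).coeff j : ℤ) : ℝ)| :=
          Finset.abs_sum_le_sum_abs _ _
      _ ≤ ∑ _α ∈ P.support, H * (B : ℝ) ^ E := by
          refine Finset.sum_le_sum fun α hα => ?_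
          rw [Polynomial.coeff_mul_natCast]
          push_cast
          rw [abs_mul, Nat.abs_cast]
          refine mul_le_mul (hPH α j) ((hcAb α hα n₁ hn₁1).trans ?_) (by positivity) hHpos.le
          exact pow_le_pow_left₀ (by positivity) hn₁Br E
      _ = P.support.card * (H * (B : ℝ) ^ E) := by rw [Finset.sum_const, nsmul_eq_mul]
      _ ≤ A0 * (H * (B : ℝ) ^ E) := by gcongr
      _ = H1 := by rw [hH1def]; ring
  have hlow : c0 ≤ H1 ^ K * ‖evx x q‖ := by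
    have h1 := hmeas q hqne hqD H1 hH1' hqH
    rw [← evx_apply] at h1
    refine h1.trans ?_
    gcongr
    rw [← Real.rpow_natCast]
    exact Real.rpow_le_rpow_of_exponent_le hH1' hκK
  have htail : ∀ n, n₁ < n →
      ‖mapF (evx x) (aeval (fun i => pwr (Polynomial ℤ) (v i) (e i)) P) n‖ ≤
        (W0 * H) * (n : ℝ) ^ E := by
    intro n hn
    rw [mapF_apply, Psi2_apply, map_sum]
    refine (norm_sum_le _ _).trans ?_
    calc ∑ α ∈ P.support, ‖evx x (coeff α P * ((cA2 v e α n : ℕ) : Polynomial ℤ))‖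
        ≤ ∑ _α ∈ P.support, ((D + 1) * X0 ^ D * H) * (n : ℝ) ^ E := by
          refine Finset.sum_le_sum fun α hα => ?_
          rw [map_mul, map_natCast, norm_mul, Complex.norm_natCast]
          refine mul_le_mul (evx_bound x X0 hX0 hxX0 D H hHpos.le _ (hPn α) (hPH α))
            (hcAb α hα n (by omega)) (by positivity) (by positivity)
      _ = P.support.card * (((D + 1) * X0 ^ D * H) * (n : ℝ) ^ E) := by
          rw [Finset.sum_const, nsmul_eq_mul]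
      _ ≤ A0 * (((D + 1) * X0 ^ D * H) * (n : ℝ) ^ E) := by gcongr
      _ = (W0 * H) * (n : ℝ) ^ E := by rw [hW0]; ring
  obtain ⟨V, hV⟩ : ∃ V : ℂ, V = eval₂ (evx x) (fun i : Fin 2 => (zetaValue (v i * τ - e i) : ℂ)) P :=
    ⟨_, rfl⟩
  have hsum : LSeriesHasSum
      (fun n => mapF (evx x) (aeval (fun i => pwr (Polynomial ℤ) (v i) (e i)) P) n) (τ : ℂ) V := by
    rw [hV]
    refine hasSum_Psi2 v e τ hv (fun i => ?_) (evx x) P
    have h1 : 1 * τ ≤ v i * τ := Nat.mul_le_mul_right _ (hv i)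
    have h2 := heL i
    by_cases hD0 : D = 0
    · exfalso
      have := hv i
      have := hvD i
      omega
    · have h3 : L + 1 ≤ (L + 1) * D := Nat.le_mul_of_pos_right _ (by omega)
      omega
  have hft := first_term
    (fun n => mapF (evx x) (aeval (fun i => pwr (Polynomial ℤ) (v i) (e i)) P) n) τ E n₁ (W0 * H)
    (by positivity) hn₁1 (by omega) (fun n hn => by
      rw [mapF_apply, hn₁min n hn, _root_.map_zero]) htail V hsum
  have hq2 : mapF (evx x) (aeval (fun i => pwr (Polynomial ℤ) (v i) (e i)) P) n₁ = evx x q := by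
    rw [mapF_apply, hq]
  rw [hq2] at hft
  rw [← hV]
  -- main inequality
  obtain ⟨Z, hZ⟩ : ∃ Z : ℝ, Z = 4 * (W0 * H) * ((B : ℝ) + 1) ^ (E + 2) * H1 ^ K / c0 := ⟨_, rfl⟩
  have hZpos : 0 < Z := by rw [hZ]; positivity
  have hZρ : Z ≤ ρ ^ τ := by
    have h1 : Real.log Z ≤ τ * Real.log ρ := by
      refine le_trans ?_ hτ1
      have h2 : Z = a1 * H ^ (K + 1) * (((B : ℝ) + 1) ^ (E + 2) * (B : ℝ) ^ (E * K)) := by
        rw [hZ, ha1, hH1def, mul_pow, mul_pow, ← pow_mul, pow_succ H K]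
        ring
      have h3 : Z ≤ a1 * H ^ (K + 1) * (((B : ℝ) + 1) ^ (E + 2) * ((B : ℝ) + 1) ^ (E * K)) := by
        rw [h2]
        gcongr
        linarith
      have h4 : Real.log Z ≤ Real.log a1 + (K + 1 : ℕ) * Real.log H +
          (E + 2 + E * K : ℕ) * b := by
        refine (Real.log_le_log hZpos h3).trans (le_of_eq ?_)
        rw [← pow_add, Real.log_mul (by positivity) (by positivity),
          Real.log_mul (by positivity) (by positivity), Real.log_pow, Real.log_pow, ← hb]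
      have h5 : ((E + 2 + E * K : ℕ) : ℝ) ≤ (D + 4) * (K + 1) * (1 + L) := by
        rw [hE]
        push_cast
        have hL : (0 : ℝ) ≤ L := Nat.cast_nonneg _
        have hKr : (0 : ℝ) ≤ K := Nat.cast_nonneg _
        nlinarith [mul_nonneg hL hKr]
      have h6 : (E + 2 + E * K : ℕ) * b ≤ (D + 4) * (K + 1) * (1 + L) * b := by gcongr
      have h7 : Real.log a1 ≤ |Real.log a1| := le_abs_self _
      have hL : (0 : ℝ) ≤ L := Nat.cast_nonneg _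
      have h8 : 0 ≤ (D + 4) * (K + 1) * b := by positivity
      rw [hC1]
      push_cast at h4
      have h9 : 0 ≤ |Real.log a1| * (Real.log H + L) := by positivity
      have h10 : 0 ≤ ((K : ℝ) + 1) * (1 + L) := by positivity
      have h11 : 0 ≤ (D + 4) * (K + 1) * b * Real.log H := by positivity
      calc Real.log Z ≤ |Real.log a1| + ((K : ℝ) + 1) * Real.log H +
            (D + 4) * (K + 1) * (1 + L) * b := by
            have := h6
            push_cast at this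
            linarith
        _ ≤ (|Real.log a1| + (K + 1) + (D + 4) * (K + 1) * b) * (1 + Real.log H + L) := by
            nlinarith
    calc Z = Real.exp (Real.log Z) := (Real.exp_log hZpos).symm
      _ ≤ Real.exp (τ * Real.log ρ) := Real.exp_le_exp.2 h1
      _ = ρ ^ τ := by rw [Real.exp_nat_mul, Real.exp_log (by linarith)]
  have hkey : 4 * (W0 * H) * ((n₁ : ℝ) + 1) ^ (E + 2) * H1 ^ K / c0 * (n₁ : ℝ) ^ τ ≤
      ((n₁ : ℝ) + 1) ^ τ := by
    have h1 : ρ * n₁ ≤ (n₁ : ℝ) + 1 := by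
      rw [hρ, add_mul, one_mul]
      have : 1 / (B : ℝ) * n₁ ≤ 1 := by
        rw [div_mul_eq_mul_div, one_mul, div_le_one (by positivity)]
        exact hn₁Br
      linarith
    have h2 : 4 * (W0 * H) * ((n₁ : ℝ) + 1) ^ (E + 2) * H1 ^ K / c0 ≤ ρ ^ τ := by
      refine le_trans ?_ hZρ
      rw [hZ]
      gcongr
    calc _ ≤ ρ ^ τ * (n₁ : ℝ) ^ τ := by gcongr
      _ = (ρ * n₁) ^ τ := by rw [mul_pow]
      _ ≤ ((n₁ : ℝ) + 1) ^ τ := pow_le_pow_left₀ (by positivity) h1 τ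
  have hq3 : c0 / H1 ^ K ≤ ‖evx x q‖ := by
    rw [div_le_iff₀ (by positivity)]
    linarith [mul_comm (H1 ^ K) ‖evx x q‖]
  have hhalf : 2 * (W0 * H) * ((n₁ : ℝ) + 1) ^ (E + 2) / ((n₁ : ℝ) + 1) ^ τ ≤
      (1 / 2) * (‖evx x q‖ / (n₁ : ℝ) ^ τ) := by
    have h1 : 2 * (W0 * H) * ((n₁ : ℝ) + 1) ^ (E + 2) / ((n₁ : ℝ) + 1) ^ τ ≤
        (1 / 2) * (c0 / H1 ^ K / (n₁ : ℝ) ^ τ) := by
      rw [div_le_iff₀ (by positivity)]
      have h2 : 4 * (W0 * H) * ((n₁ : ℝ) + 1) ^ (E + 2) ≤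
          c0 / H1 ^ K / (n₁ : ℝ) ^ τ * ((n₁ : ℝ) + 1) ^ τ := by
        calc 4 * (W0 * H) * ((n₁ : ℝ) + 1) ^ (E + 2) =
              c0 / H1 ^ K / (n₁ : ℝ) ^ τ * (4 * (W0 * H) * ((n₁ : ℝ) + 1) ^ (E + 2) *
                H1 ^ K / c0 * (n₁ : ℝ) ^ τ) := by
                field_simp
          _ ≤ _ := by gcongr
      linarith
    refine h1.trans ?_
    gcongr
  have hfin : (1 / 2) * (c0 / H1 ^ K / (B : ℝ) ^ τ) ≤ ‖V‖ := by
    have h1 : (1 / 2) * (c0 / H1 ^ K / (B : ℝ) ^ τ) ≤ (1 / 2) * (‖evx x q‖ / (n₁ : ℝ) ^ τ) := by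
      gcongr
    linarith
  refine le_trans ?_ hfin
  have h1 : Real.exp (-(b * τ)) = 1 / ((B : ℝ) + 1) ^ τ := by
    rw [Real.exp_neg, mul_comm, Real.exp_nat_mul, hb, Real.exp_log (by positivity), one_div]
  have h2 : ((B : ℝ) + 1) ^ τ = ρ ^ τ * (B : ℝ) ^ τ := by
    rw [← mul_pow, hρ]
    congr 1
    field_simp
  have h3 : 2 * H1 ^ K / c0 ≤ ρ ^ τ := by
    refine le_trans ?_ hZρ
    rw [hZ]
    have h4 : (1 : ℝ) ≤ ((B : ℝ) + 1) ^ (E + 2) := one_le_pow₀ (by linarith)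
    have h5 : (1 : ℝ) ≤ W0 * H := one_le_mul_of_one_le_of_one_le hW0' hH1
    gcongr
    nlinarith
  rw [h1, h2]
  have h4 : (1 / 2) * (c0 / H1 ^ K / (B : ℝ) ^ τ) = 1 / ((2 * H1 ^ K / c0) * (B : ℝ) ^ τ) := by
    field_simp
  rw [h4]
  gcongr

end Pool.Agent.H298Z
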