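import Mathlib

/-!
# Polynomials in the functions `n ↦ n ^ e` under Dirichlet convolution

For a commutative domain `R` of characteristic zero the arithmetic functions `n ↦ n ^ (2 (m - i))`,
`i < m`, are algebraically independent over `R` in the ring of arithmetic functions, and a nonzero
polynomial of degree at most `d` in them does not vanish at some `N ≤ B ^ d`, where `B` is a bound
for the first `m` primes.
-/

set_option autoImplicit false

namespace Pool.Agent.H298Z

open ArithmeticFunction Finset MvPolynomial

section

variable (R : Type*) [CommRing R]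

/-- the arithmetic function `n ↦ n ^ e` -/
def pw (e : ℕ) : ArithmeticFunction R := ⟨fun n => if n = 0 then 0 else (n : R) ^ e, by simp⟩

variable {R}

lemma pw_apply (e n : ℕ) (hn : n ≠ 0) : pw R e n = (n : R) ^ e := by
  simp [pw, hn]

/-- the exponents -/
def ex (m : ℕ) (i : Fin m) : ℕ := 2 * (m - i)

variable (R) in
/-- evaluation of polynomials at the functions `n ↦ n ^ (2 (m - i))` -/
noncomputable def Psi (m : ℕ) : MvPolynomial (Fin m) R →ₐ[R] ArithmeticFunction R :=
  MvPolynomial.aeval fun i => pw R (ex m i)

/-- the derivation `f ↦ v_p f` -/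
def Dp (p : ℕ) (f : ArithmeticFunction R) : ArithmeticFunction R :=
  ⟨fun n => (n.factorization p : R) * f n, by simp⟩

lemma Dp_apply (p : ℕ) (f : ArithmeticFunction R) (n : ℕ) :
    Dp p f n = (n.factorization p : R) * f n := rfl

lemma Dp_add (p : ℕ) (f g : ArithmeticFunction R) : Dp p (f + g) = Dp p f + Dp p g := by
  ext n
  simp [Dp_apply, mul_add]

lemma Dp_mul (p : ℕ) (f g : ArithmeticFunction R) :
    Dp p (f * g) = Dp p f * g + f * Dp p g := by
  ext n
  rw [Dp_apply, ArithmeticFunction.add_apply, mul_apply, mul_apply, mul_apply, Finset.mul_sum,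
    ← Finset.sum_add_distrib]
  refine Finset.sum_congr rfl fun x hx => ?_
  obtain ⟨h1, h2⟩ := Nat.mem_divisorsAntidiagonal.1 hx
  have hx1 : x.1 ≠ 0 := by rintro h; rw [h, zero_mul] at h1; exact h2 h1.symm
  have hx2 : x.2 ≠ 0 := by rintro h; rw [h, mul_zero] at h1; exact h2 h1.symm
  rw [Dp_apply, Dp_apply, ← h1, Nat.factorization_mul hx1 hx2, Finsupp.add_apply]
  push_cast
  ring

lemma algebraMap_apply' (r : R) (n : ℕ) :
    algebraMap R (ArithmeticFunction R) r n = if n = 1 then r else 0 := by
  rw [Algebra.algebraMap_eq_smul_one, smul_map, ArithmeticFunction.one_apply]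
  split_ifs <;> simp

lemma Dp_algebraMap (p : ℕ) (r : R) : Dp p (algebraMap R (ArithmeticFunction R) r) = 0 := by
  ext n
  rw [Dp_apply, algebraMap_apply']
  by_cases hn : n = 1
  · subst hn
    simp
  · simp [hn]

lemma Psi_C (m : ℕ) (r : R) : Psi R m (C r) = algebraMap R _ r := by
  unfold Psi
  exact MvPolynomial.algHom_C _ r

lemma Psi_X (m : ℕ) (i : Fin m) : Psi R m (X i) = pw R (ex m i) := by
  unfold Psi
  rw [aeval_X]

/-- the chain rule -/
lemma chain (m p : ℕ) (P : MvPolynomial (Fin m) R) :
    Dp p (Psi R m P) = ∑ j, Psi R m (pderiv j P) * Dp p (pw R (ex m j)) := by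
  induction P using MvPolynomial.induction_on with
  | C a =>
    rw [Psi_C, Dp_algebraMap]
    symm
    refine Finset.sum_eq_zero fun j _ => ?_
    rw [pderiv_C, _root_.map_zero, zero_mul]
  | add P Q hP hQ =>
    rw [map_add, Dp_add, hP, hQ, ← Finset.sum_add_distrib]
    refine Finset.sum_congr rfl fun j _ => ?_
    rw [map_add, map_add, add_mul]
  | mul_X P i hP =>
    rw [map_mul, Dp_mul, hP, Psi_X, Finset.sum_mul]
    have h1 : ∀ j, Psi R m (pderiv j (P * X i)) * Dp p (pw R (ex m j)) =
        Psi R m (pderiv j P) * Dp p (pw R (ex m j)) * pw R (ex m i) +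
          (if i = j then Psi R m P * Dp p (pw R (ex m j)) else 0) := by
      intro j
      rw [pderiv_mul, map_add, map_mul, Psi_X, map_mul]
      by_cases hij : i = j
      · subst hij
        rw [pderiv_X_self, map_one, if_pos rfl]
        ring
      · rw [pderiv_X_of_ne hij, _root_.map_zero, if_neg hij]
        ring
    rw [Finset.sum_congr rfl fun j _ => h1 j, Finset.sum_add_distrib]
    congr 1
    rw [Finset.sum_ite_eq Finset.univ i, if_pos (Finset.mem_univ _)]

variable [IsDomain R] [CharZero R]

lemma vdm (m : ℕ) (p : Fin m → ℕ) (hp : ∀ i, (p i).Prime) (hinj : Function.Injective p)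
    (g : Fin m → R) (hg : ∀ l, ∑ j, g j * (p l : R) ^ (ex m j) = 0) : g = 0 := by
  have hv : Function.Injective fun l => ((p l : R) ^ 2) := by
    intro a b hab
    apply hinj
    have h1 : ((p a ^ 2 : ℕ) : R) = ((p b ^ 2 : ℕ) : R) := by
      push_cast
      exact hab
    have h2 : p a ^ 2 = p b ^ 2 := by exact_mod_cast h1
    exact Nat.pow_left_injective (n := 2) (by norm_num) h2
  have h2 : Matrix.mulVec (Matrix.vandermonde fun l => ((p l : R) ^ 2)) (fun j => g (Fin.rev j)) = 0 := by
    funext l
    rw [Matrix.mulVec, dotProduct, Pi.zero_apply]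
    have h3 := hg l
    have hp0 : ((p l : R) ^ 2) ≠ 0 := pow_ne_zero _ (by exact_mod_cast (hp l).ne_zero)
    have h4 : (p l : R) ^ 2 * ∑ j : Fin m, Matrix.vandermonde (fun l => ((p l : R) ^ 2)) l j * g (Fin.rev j) = 0 := by
      rw [← h3, Finset.mul_sum, ← Equiv.sum_comp Fin.revPerm]
      refine Finset.sum_congr rfl fun j _ => ?_
      rw [Matrix.vandermonde_apply, Fin.revPerm_apply, Fin.rev_rev]
      have h5 : ex m j = 2 * ((Fin.rev j : Fin m) : ℕ) + 2 := by
        unfold ex
        rw [Fin.val_rev]
        have := j.2
        omega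
      rw [h5, ← pow_mul, pow_add]
      ring
    exact (mul_eq_zero.1 h4).resolve_left hp0
  have h3 := Matrix.eq_zero_of_mulVec_eq_zero (Matrix.det_vandermonde_ne_zero_iff.2 hv) h2
  funext j
  have h4 := congrFun h3 (Fin.rev j)
  simpa using h4

/-- a nonzero polynomial of degree `≤ d` gives a nonzero value at some `N ≤ B ^ d` -/
theorem exists_ne (m B : ℕ) (hB : 1 ≤ B) (p : Fin m → ℕ) (hp : ∀ i, (p i).Prime)
    (hinj : Function.Injective p) (hpB : ∀ i, p i ≤ B) (d : ℕ) :
    ∀ P : MvPolynomial (Fin m) R, P ≠ 0 → P.totalDegree ≤ d →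
      ∃ N, 1 ≤ N ∧ N ≤ B ^ d ∧ Psi R m P N ≠ 0 := by
  induction d with
  | zero =>
    intro P hP hd
    have h1 : P = C (coeff 0 P) := totalDegree_eq_zero_iff_eq_C.1 (Nat.le_zero.1 hd)
    refine ⟨1, le_rfl, by simp, ?_⟩
    rw [h1, Psi_C, algebraMap_apply', if_pos rfl]
    intro h0
    rw [h0, _root_.map_zero] at h1
    exact hP h1
  | succ d ih =>
    intro P hP hd
    classical
    by_cases h0 : P.totalDegree = 0
    · have h1 : P = C (coeff 0 P) := totalDegree_eq_zero_iff_eq_C.1 h0
      refine ⟨1, le_rfl, Nat.one_le_pow _ _ hB, ?_⟩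
      rw [h1, Psi_C, algebraMap_apply', if_pos rfl]
      intro h0
      rw [h0, _root_.map_zero] at h1
      exact hP h1
    · -- some partial derivative is nonzero
      have h1 : ∃ j, pderiv j P ≠ 0 := by
        by_contra hcon
        push Not at hcon
        apply h0
        rw [totalDegree_eq_zero_iff]
        intro α hα i
        by_contra hαi
        have h2 := congrArg (coeff (α - Finsupp.single i 1)) (hcon i)
        rw [coeff_pderiv, coeff_zero] at h2
        have h3 : α - Finsupp.single i 1 + Finsupp.single i 1 = α := by
          apply tsub_add_cancel_of_le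
          rw [Finsupp.single_le_iff]
          omega
        rw [h3] at h2
        have h4 : coeff α P ≠ 0 := mem_support_iff.1 hα
        rcases mul_eq_zero.1 h2 with h5 | h5
        · exact h4 h5
        · have h6 : ((((α - Finsupp.single i 1 : Fin m →₀ ℕ) i + 1 : ℕ)) : R) = 0 := by exact_mod_cast h5
          exact absurd (Nat.cast_eq_zero.1 h6) (by omega)
      have hdeg : ∀ j, (pderiv j P).totalDegree ≤ d := by
        intro j
        rw [totalDegree]
        refine Finset.sup_le fun α hα => ?_
        have h2 : coeff α (pderiv j P) ≠ 0 := mem_support_iff.1 hα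
        rw [coeff_pderiv] at h2
        have h3 : α + Finsupp.single j 1 ∈ P.support := by
          rw [mem_support_iff]
          intro h4
          rw [h4, zero_mul] at h2
          exact h2 rfl
        have h4 := le_totalDegree h3
        rw [Finsupp.sum_add_index' (by simp) (by simp), Finsupp.sum_single_index (by simp)] at h4
        omega
      obtain ⟨j₀, hj₀⟩ := h1
      obtain ⟨N₀, hN1, hNB, hN0⟩ := ih (pderiv j₀ P) hj₀ (hdeg j₀)
      have hex : ∃ n, ∃ j, Psi R m (pderiv j P) n ≠ 0 := ⟨N₀, j₀, hN0⟩
      obtain ⟨n, hn⟩ : ∃ n, n = Nat.find hex := ⟨_, rfl⟩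
      have hn1 : ∃ j, Psi R m (pderiv j P) n ≠ 0 := by rw [hn]; exact Nat.find_spec hex
      have hn2 : ∀ a < n, ∀ j, Psi R m (pderiv j P) a = 0 := by
        intro a ha j
        rw [hn] at ha
        have := Nat.find_min hex ha
        push Not at this
        exact this j
      have hnB : n ≤ B ^ d := by
        rw [hn]
        exact (Nat.find_min' hex ⟨j₀, hN0⟩).trans hNB
      have hnpos : n ≠ 0 := by
        rintro rfl
        obtain ⟨j, hj⟩ := hn1
        exact hj (ArithmeticFunction.map_zero)
      by_contra hcon
      push Not at hcon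
      -- all values at `n * p l` vanish
      have hval : ∀ l, ∑ j, Psi R m (pderiv j P) n * (p l : R) ^ (ex m j) = 0 := by
        intro l
        have hpl := hp l
        have h2 : Psi R m P (n * p l) = 0 := by
          apply hcon
          · exact Nat.one_le_iff_ne_zero.2 (mul_ne_zero hnpos hpl.ne_zero)
          · rw [pow_succ]
            exact Nat.mul_le_mul hnB (hpB l)
        have h3 := congrArg (fun f : ArithmeticFunction R => f (n * p l)) (chain m (p l) P)
        rw [Dp_apply, h2, mul_zero] at h3
        have h4 : ∀ j, (Psi R m (pderiv j P) * Dp (p l) (pw R (ex m j))) (n * p l) =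
            Psi R m (pderiv j P) n * (p l : R) ^ (ex m j) := by
          intro j
          rw [mul_apply, Finset.sum_eq_single (n, p l)]
          · simp only
            rw [Dp_apply, pw_apply _ _ hpl.ne_zero, hpl.factorization, Finsupp.single_eq_same,
              Nat.cast_one, one_mul]
          · rintro ⟨a, b⟩ hab hne
            obtain ⟨h5, h6⟩ := Nat.mem_divisorsAntidiagonal.1 hab
            simp only at h5 ⊢
            by_cases hpb : p l ∣ b
            · obtain ⟨b', rfl⟩ := hpb
              have h7 : a * b' = n := by
                have h8 : (a * b') * p l = n * p l := by rw [← h5]; ring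
                exact Nat.eq_of_mul_eq_mul_right hpl.pos h8
              have hb' : b' ≠ 0 := by rintro rfl; exact hnpos (by simpa using h7.symm)
              have ha : a < n := by
                rcases Nat.lt_or_ge a n with h | h
                · exact h
                · exfalso
                  have h9 : b' = 1 := by
                    have h10 : n ≤ a * 1 := by simpa using h
                    have h11 : a * b' ≤ a * 1 := by rw [h7]; exact h10
                    have ha0 : 0 < a := by omega
                    have := Nat.le_of_mul_le_mul_left h11 ha0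
                    omega
                  apply hne
                  subst h9
                  simp only [mul_one] at h7 ⊢
                  rw [h7]
              rw [hn2 a ha, zero_mul]
            · rw [Dp_apply, Nat.factorization_eq_zero_of_not_dvd hpb]
              simp
          · intro h
            exfalso
            apply h
            rw [Nat.mem_divisorsAntidiagonal]
            exact ⟨rfl, mul_ne_zero hnpos hpl.ne_zero⟩
        have h5 : (∑ j, Psi R m (pderiv j P) * Dp (p l) (pw R (ex m j))) (n * p l) =
            ∑ j, (Psi R m (pderiv j P) * Dp (p l) (pw R (ex m j))) (n * p l) := by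
          clear h3 h4
          induction (Finset.univ : Finset (Fin m)) using Finset.induction_on with
          | empty => simp
          | insert a s ha ihs =>
            rw [Finset.sum_insert ha, Finset.sum_insert ha, ArithmeticFunction.add_apply, ihs]
        rw [h5] at h3
        rw [← Finset.sum_congr rfl fun j _ => h4 j, ← h3]
      have h6 := vdm m p hp hinj (fun j => Psi R m (pderiv j P) n) hval
      obtain ⟨j, hj⟩ := hn1
      exact hj (congrFun h6 j)

end

end Pool.Agent.H298Z
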