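import Pool.Agent.H298Z.Ana

/-!
# Polynomials in two functions supported on powers, under Dirichlet convolution

`pwr R v e` is the arithmetic function `N ^ v ↦ N ^ e`, zero outside the `v`-th powers.  Two such
functions with different `(v, e)` are algebraically independent over every commutative domain of
characteristic zero, and a nonzero polynomial of degree at most `d` in them has a nonzero value at
an index bounded in terms of `d` and of a bound for the two `v` only.
-/

set_option autoImplicit false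

namespace Pool.Agent.H298Z

open ArithmeticFunction Finset MvPolynomial

section

variable (R : Type*) [CommSemiring R]

/-- the arithmetic function `N ^ v ↦ N ^ e`, zero outside the `v`-th powers -/
def pwr (v e : ℕ) : ArithmeticFunction R :=
  ⟨fun n => ∑ N ∈ Finset.Icc 1 n, if N ^ v = n then (N : R) ^ e else 0, by simp⟩

variable {R}

lemma pwr_apply (v e n : ℕ) :
    pwr R v e n = ∑ N ∈ Finset.Icc 1 n, if N ^ v = n then (N : R) ^ e else 0 := rfl

lemma pwr_pow (v e N : ℕ) (hv : 1 ≤ v) (hN : 1 ≤ N) : pwr R v e (N ^ v) = (N : R) ^ e := by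
  rw [pwr_apply, Finset.sum_eq_single N]
  · rw [if_pos rfl]
  · intro b _ hb
    rw [if_neg]
    intro h
    exact hb (Nat.pow_left_injective (n := v) (by omega) h)
  · intro h
    exfalso
    apply h
    rw [Finset.mem_Icc]
    exact ⟨hN, Nat.le_self_pow (by omega) N⟩

lemma pwr_eq_zero (v e n : ℕ) (h : ∀ N, 1 ≤ N → N ^ v ≠ n) : pwr R v e n = 0 := by
  rw [pwr_apply]
  refine Finset.sum_eq_zero fun N hN => ?_
  rw [if_neg (h N (Finset.mem_Icc.1 hN).1)]

end

section

variable {R : Type*} [CommRing R]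

/-- the chain rule for a general family -/
lemma chain' (m p : ℕ) (f : Fin m → ArithmeticFunction R) (P : MvPolynomial (Fin m) R) :
    Dp p (aeval f P) = ∑ j, aeval f (pderiv j P) * Dp p (f j) := by
  induction P using MvPolynomial.induction_on with
  | C a =>
    rw [show aeval f (C a) = algebraMap R (ArithmeticFunction R) a from MvPolynomial.algHom_C _ a,
      Dp_algebraMap]
    symm
    refine Finset.sum_eq_zero fun j _ => ?_
    rw [pderiv_C, _root_.map_zero, zero_mul]
  | add P Q hP hQ =>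
    rw [map_add, Dp_add, hP, hQ, ← Finset.sum_add_distrib]
    refine Finset.sum_congr rfl fun j _ => ?_
    rw [map_add, map_add, add_mul]
  | mul_X P i hP =>
    rw [map_mul, Dp_mul, hP, aeval_X, Finset.sum_mul]
    have h1 : ∀ j, aeval f (pderiv j (P * X i)) * Dp p (f j) =
        aeval f (pderiv j P) * Dp p (f j) * f i +
          (if i = j then aeval f P * Dp p (f j) else 0) := by
      intro j
      rw [pderiv_mul, map_add, map_mul, aeval_X, map_mul]
      by_cases hij : i = j
      · subst hij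
        rw [pderiv_X_self, map_one, if_pos rfl]
        ring
      · rw [pderiv_X_of_ne hij, _root_.map_zero, if_neg hij]
        ring
    rw [Finset.sum_congr rfl fun j _ => h1 j, Finset.sum_add_distrib]
    congr 1
    rw [Finset.sum_ite_eq Finset.univ i, if_pos (Finset.mem_univ _)]

/-- the value of `F * D_p φ` at `n p ^ v` -/
lemma conv_value (v e p n : ℕ) (hv : 1 ≤ v) (hp : p.Prime) (hn : n ≠ 0) (F : ArithmeticFunction R)
    (hF : ∀ a < n, F a = 0) :
    (F * Dp p (pwr R v e)) (n * p ^ v) = F n * ((v : R) * (p : R) ^ e) := by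
  have hp0 : 0 < p ^ v := pow_pos hp.pos v
  rw [mul_apply, Finset.sum_eq_single (n, p ^ v)]
  · simp only
    rw [Dp_apply, pwr_pow v e p hv hp.one_lt.le, hp.factorization_pow, Finsupp.single_eq_same]
  · rintro ⟨x, y⟩ hxy hne
    obtain ⟨h1, h2⟩ := Nat.mem_divisorsAntidiagonal.1 hxy
    simp only at h1 ⊢
    rw [Dp_apply]
    by_cases hpy : p ∣ y
    · by_cases hN : ∃ N, 1 ≤ N ∧ N ^ v = y
      · obtain ⟨N, hN1, hNy⟩ := hN
        have hpN : p ∣ N := by
          rw [← hNy] at hpy
          exact hp.dvd_of_dvd_pow hpy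
        obtain ⟨z, rfl⟩ := hpN
        have hz : 1 ≤ z := by
          rcases Nat.eq_zero_or_pos z with h | h
          · rw [h] at hN1; omega
          · exact h
        have h3 : x * z ^ v = n := by
          have h4 : (x * z ^ v) * p ^ v = n * p ^ v := by
            rw [← h1, ← hNy, mul_pow]
            ring
          exact Nat.eq_of_mul_eq_mul_right hp0 h4
        have hx : x < n := by
          rcases Nat.lt_or_ge x n with h | h
          · exact h
          · exfalso
            have hx0 : 0 < x := by omega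
            have h5 : z ^ v = 1 := by
              have h6 : x * z ^ v ≤ x * 1 := by rw [h3, mul_one]; exact h
              have h7 := Nat.le_of_mul_le_mul_left h6 hx0
              have h8 : 1 ≤ z ^ v := Nat.one_le_pow _ _ hz
              omega
            apply hne
            have h9 : z = 1 := by
              rcases Nat.pow_eq_one.1 h5 with h | h
              · exact h
              · omega
            rw [h9, mul_one] at hNy
            rw [h5, mul_one] at h3
            rw [h3, hNy]
        rw [hF x hx, zero_mul]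
      · rw [pwr_eq_zero v e y (fun N hN1 hNy => hN ⟨N, hN1, hNy⟩)]
        ring
    · rw [Nat.factorization_eq_zero_of_not_dvd hpy]
      simp
  · intro h
    exfalso
    apply h
    rw [Nat.mem_divisorsAntidiagonal]
    exact ⟨rfl, mul_ne_zero hn hp0.ne'⟩

/-- the value of `F * D_p φ` at `n p ^ v` vanishes for larger powers -/
lemma conv_zero (v w e p n : ℕ) (hvw : v < w) (hp : p.Prime) (hpn : ¬ p ∣ n)
    (F : ArithmeticFunction R) : (F * Dp p (pwr R w e)) (n * p ^ v) = 0 := by
  rw [mul_apply]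
  refine Finset.sum_eq_zero fun z hz => ?_
  obtain ⟨h1, h2⟩ := Nat.mem_divisorsAntidiagonal.1 hz
  rw [Dp_apply]
  by_cases hpy : p ∣ z.2
  · rw [pwr_eq_zero w e z.2]
    · ring
    · intro N hN1 hNy
      have hpN : p ∣ N := by
        rw [← hNy] at hpy
        exact hp.dvd_of_dvd_pow hpy
      have h3 : p ^ w ∣ n * p ^ v := by
        rw [← h1, ← hNy]
        exact Dvd.dvd.mul_left (pow_dvd_pow_of_dvd hpN w) _
      apply hpn
      have h4 : p ^ (w - v) ∣ n := by
        have h5 : p ^ (w - v) * p ^ v ∣ n * p ^ v := by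
          rw [← pow_add, Nat.sub_add_cancel hvw.le]
          exact h3
        exact Nat.dvd_of_mul_dvd_mul_right (pow_pos hp.pos v) h5
      exact (dvd_pow_self p (by omega)).trans h4
  · rw [Nat.factorization_eq_zero_of_not_dvd hpy]
    simp

variable [IsDomain R] [CharZero R]

lemma pderiv_deg (d : ℕ) (m : ℕ) (P : MvPolynomial (Fin m) R) (hd : P.totalDegree ≤ d + 1)
    (j : Fin m) : (pderiv j P).totalDegree ≤ d := by
  rw [totalDegree]
  refine Finset.sup_le fun α hα => ?_
  have h2 : coeff α (pderiv j P) ≠ 0 := mem_support_iff.1 hα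
  rw [coeff_pderiv] at h2
  have h3 : α + Finsupp.single j 1 ∈ P.support := by
    rw [mem_support_iff]
    intro h4
    rw [h4, zero_mul] at h2
    exact h2 rfl
  have h4 := le_totalDegree h3
  rw [Finsupp.sum_add_index' (by simp) (by simp), Finsupp.sum_single_index (by simp)] at h4
  omega

lemma exists_pderiv_ne (m : ℕ) (P : MvPolynomial (Fin m) R) (h0 : P.totalDegree ≠ 0) :
    ∃ j, pderiv j P ≠ 0 := by
  by_contra hcon
  push Not at hcon
  apply h0
  rw [totalDegree_eq_zero_iff]
  intro α hα i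
  by_contra hαi
  have h2 := congrArg (coeff (α - Finsupp.single i 1)) (hcon i)
  rw [coeff_pderiv, coeff_zero] at h2
  have h3 : α - Finsupp.single i 1 + Finsupp.single i 1 = α := by
    apply tsub_add_cancel_of_le
    rw [Finsupp.single_le_iff]
    omega
  rw [h3] at h2
  have h4 : coeff α P ≠ 0 := mem_support_iff.1 hα
  rcases mul_eq_zero.1 h2 with h5 | h5
  · exact h4 h5
  · have h6 : ((((α - Finsupp.single i 1 : Fin m →₀ ℕ) i + 1 : ℕ)) : R) = 0 := by exact_mod_cast h5
    exact absurd (Nat.cast_eq_zero.1 h6) (by omega)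

lemma val_ne_of_Dp (p M : ℕ) (F : ArithmeticFunction R) (h : Dp p F M ≠ 0) : F M ≠ 0 := by
  intro h0
  apply h
  rw [Dp_apply, h0, mul_zero]

lemma exists_min_val (F : ArithmeticFunction R) (N : ℕ) (h : F N ≠ 0) :
    ∃ n, 1 ≤ n ∧ n ≤ N ∧ F n ≠ 0 ∧ ∀ a < n, F a = 0 := by
  classical
  have hex : ∃ n, F n ≠ 0 := ⟨N, h⟩
  refine ⟨Nat.find hex, ?_, Nat.find_min' hex h, Nat.find_spec hex, fun a ha => ?_⟩
  · rcases Nat.eq_zero_or_pos (Nat.find hex) with h0 | h0
    · exfalso
      have h1 := Nat.find_spec hex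
      rw [h0] at h1
      exact h1 ArithmeticFunction.map_zero
    · exact h0
  · have := Nat.find_min hex ha
    push Not at this
    exact this

/-- the two exponents differ: `D_p` picks out one partial derivative -/
lemma step_ne (v e : Fin 2 → ℕ) (hv : ∀ i, 1 ≤ v i) (P : MvPolynomial (Fin 2) R) (j i : Fin 2)
    (hji : j ≠ i) (hi : pderiv i P = 0 ∨ v j < v i) (B : ℕ) (q : ℕ) (hq : q.Prime) (hBq : B < q)
    (N : ℕ) (hNB : N ≤ B) (hN : aeval (fun i => pwr R (v i) (e i)) (pderiv j P) N ≠ 0) :
    ∃ n, 1 ≤ n ∧ n ≤ B ∧ aeval (fun i => pwr R (v i) (e i)) P (n * q ^ (v j)) ≠ 0 := by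
  obtain ⟨n, hn1, hnN, hne, hmin⟩ := exists_min_val _ N hN
  refine ⟨n, hn1, hnN.trans hNB, ?_⟩
  have hqn : ¬ q ∣ n := fun h => by
    have := Nat.le_of_dvd (by omega) h
    omega
  apply val_ne_of_Dp q
  rw [chain' 2 q]
  have huniv : (Finset.univ : Finset (Fin 2)) = {j, i} := by
    ext x
    simp only [Finset.mem_univ, Finset.mem_insert, Finset.mem_singleton, true_iff]
    omega
  rw [huniv, Finset.sum_pair hji, ArithmeticFunction.add_apply,
    conv_value (v j) (e j) q n (hv j) hq (by omega) _ hmin]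
  have h2 : (aeval (fun i => pwr R (v i) (e i)) (pderiv i P) * Dp q (pwr R (v i) (e i)))
      (n * q ^ (v j)) = 0 := by
    rcases hi with h | h
    · rw [h, _root_.map_zero, zero_mul]
      rfl
    · exact conv_zero (v j) (v i) (e i) q n h hq hqn _
  rw [h2, add_zero]
  refine mul_ne_zero hne (mul_ne_zero ?_ (pow_ne_zero _ ?_))
  · have := hv j
    exact_mod_cast (by omega : v j ≠ 0)
  · exact_mod_cast hq.ne_zero

/-- the two exponents agree -/
lemma step_eq (v : ℕ) (e : Fin 2 → ℕ) (hv : 1 ≤ v) (he : e 0 ≠ e 1) (P : MvPolynomial (Fin 2) R)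
    (B N : ℕ) (j : Fin 2) (hNB : N ≤ B) (hN : aeval (fun i => pwr R v (e i)) (pderiv j P) N ≠ 0) :
    ∃ n, 1 ≤ n ∧ n ≤ B ∧ (aeval (fun i => pwr R v (e i)) P (n * 2 ^ v) ≠ 0 ∨
      aeval (fun i => pwr R v (e i)) P (n * 3 ^ v) ≠ 0) := by
  classical
  have hex : ∃ n, ∃ j, aeval (fun i => pwr R v (e i)) (pderiv j P) n ≠ 0 := ⟨N, j, hN⟩
  obtain ⟨n, hn⟩ : ∃ n, n = Nat.find hex := ⟨_, rfl⟩
  have hn1 : ∃ j, aeval (fun i => pwr R v (e i)) (pderiv j P) n ≠ 0 := by
    rw [hn]; exact Nat.find_spec hex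
  have hn2 : ∀ j, ∀ a < n, aeval (fun i => pwr R v (e i)) (pderiv j P) a = 0 := by
    intro j a ha
    rw [hn] at ha
    have := Nat.find_min hex ha
    push Not at this
    exact this j
  have hnB : n ≤ B := by
    rw [hn]
    exact (Nat.find_min' hex ⟨j, hN⟩).trans hNB
  have hnpos : n ≠ 0 := by
    rintro rfl
    obtain ⟨j, hj⟩ := hn1
    exact hj (ArithmeticFunction.map_zero)
  refine ⟨n, by omega, hnB, ?_⟩
  by_contra hcon
  push Not at hcon
  have hval : ∀ p : ℕ, p.Prime → aeval (fun i => pwr R v (e i)) P (n * p ^ v) = 0 →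
      aeval (fun i => pwr R v (e i)) (pderiv 0 P) n * (p : R) ^ (e 0) +
        aeval (fun i => pwr R v (e i)) (pderiv 1 P) n * (p : R) ^ (e 1) = 0 := by
    intro p hp h0
    have h1 := congrArg (fun f : ArithmeticFunction R => f (n * p ^ v))
      (chain' 2 p (fun i => pwr R v (e i)) P)
    rw [Dp_apply, h0, mul_zero, Fin.sum_univ_two, ArithmeticFunction.add_apply,
      conv_value v (e 0) p n hv hp hnpos _ (hn2 0),
      conv_value v (e 1) p n hv hp hnpos _ (hn2 1)] at h1
    have hv0 : (v : R) ≠ 0 := by exact_mod_cast (by omega : v ≠ 0)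
    have h2 : (v : R) * (aeval (fun i => pwr R v (e i)) (pderiv 0 P) n * (p : R) ^ (e 0) +
        aeval (fun i => pwr R v (e i)) (pderiv 1 P) n * (p : R) ^ (e 1)) = 0 := by
      rw [h1]
      ring
    exact (mul_eq_zero.1 h2).resolve_left hv0
  have h2 := hval 2 Nat.prime_two hcon.1
  have h3 := hval 3 Nat.prime_three hcon.2
  obtain ⟨g0, hg0⟩ : ∃ g, g = aeval (fun i => pwr R v (e i)) (pderiv 0 P) n := ⟨_, rfl⟩
  obtain ⟨g1, hg1⟩ : ∃ g, g = aeval (fun i => pwr R v (e i)) (pderiv 1 P) n := ⟨_, rfl⟩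
  rw [← hg0, ← hg1] at h2 h3
  push_cast at h2 h3
  have h4 : g1 * ((2 : R) ^ (e 1) * 3 ^ (e 0) - 3 ^ (e 1) * 2 ^ (e 0)) = 0 := by
    linear_combination (3 : R) ^ (e 0) * h2 - (2 : R) ^ (e 0) * h3
  have h5 : ((2 : R) ^ (e 1) * 3 ^ (e 0) - 3 ^ (e 1) * 2 ^ (e 0)) ≠ 0 := by
    intro h6
    have h7 : ((2 ^ (e 1) * 3 ^ (e 0) : ℕ) : R) = ((3 ^ (e 1) * 2 ^ (e 0) : ℕ) : R) := by
      push_cast
      linear_combination h6
    have h8 : 2 ^ (e 1) * 3 ^ (e 0) = 3 ^ (e 1) * 2 ^ (e 0) := by exact_mod_cast h7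
    have h9 := congrArg (fun t => t.factorization 2) h8
    rw [Nat.factorization_mul (by positivity) (by positivity),
      Nat.factorization_mul (by positivity) (by positivity), Nat.factorization_pow,
      Nat.factorization_pow, Nat.factorization_pow, Nat.factorization_pow,
      Nat.prime_two.factorization, Nat.prime_three.factorization] at h9
    simp at h9
    exact he h9.symm
  have h6 : g1 = 0 := (mul_eq_zero.1 h4).resolve_right h5
  have h7 : g0 = 0 := by
    rw [h6, zero_mul, add_zero] at h2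
    refine (mul_eq_zero.1 h2).resolve_right (pow_ne_zero _ ?_)
    exact two_ne_zero
  obtain ⟨j, hj⟩ := hn1
  fin_cases j
  · exact hj (by rw [← h7, hg0]; rfl)
  · exact hj (by rw [← h6, hg1]; rfl)

/-- a nonzero polynomial of degree `≤ d` gives a nonzero value at a bounded index -/
theorem exists_ne2 (V d : ℕ) : ∃ B, 1 ≤ B ∧ ∀ (v e : Fin 2 → ℕ), (∀ i, 1 ≤ v i) →
    (∀ i, v i ≤ V) → (v 0 ≠ v 1 ∨ e 0 ≠ e 1) → ∀ P : MvPolynomial (Fin 2) R, P ≠ 0 →
      P.totalDegree ≤ d → ∃ N, 1 ≤ N ∧ N ≤ B ∧ aeval (fun i => pwr R (v i) (e i)) P N ≠ 0 := by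
  have hconst : ∀ (v e : Fin 2 → ℕ) (P : MvPolynomial (Fin 2) R), P ≠ 0 → P.totalDegree = 0 →
      aeval (fun i => pwr R (v i) (e i)) P 1 ≠ 0 := by
    intro v e P hP h0
    have h1 : P = C (coeff 0 P) := totalDegree_eq_zero_iff_eq_C.1 h0
    rw [h1, show aeval (fun i => pwr R (v i) (e i)) (C (coeff 0 P)) =
      algebraMap R (ArithmeticFunction R) (coeff 0 P) from MvPolynomial.algHom_C _ _,
      algebraMap_apply', if_pos rfl]
    intro h0
    rw [h0, _root_.map_zero] at h1
    exact hP h1
  induction d with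
  | zero =>
    refine ⟨1, le_rfl, fun v e _ _ _ P hP hd => ⟨1, le_rfl, le_rfl, hconst v e P hP (by omega)⟩⟩
  | succ d ih =>
    obtain ⟨B, hB1, hB⟩ := ih
    obtain ⟨q, hq, hqp⟩ := Nat.exists_infinite_primes (B + 3)
    have hq1 : 1 ≤ q ^ V := Nat.one_le_pow _ _ (by omega)
    refine ⟨B * q ^ V, by nlinarith, fun v e hv hvV hne P hP hd => ?_⟩
    by_cases h0 : P.totalDegree = 0
    · exact ⟨1, le_rfl, by nlinarith, hconst v e P hP h0⟩
    · obtain ⟨j, hj⟩ := exists_pderiv_ne 2 P h0
      by_cases hvv : v 0 = v 1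
      · -- equal exponents
        have he : e 0 ≠ e 1 := by
          rcases hne with h | h
          · exact absurd hvv h
          · exact h
        obtain ⟨N, hN1, hNB, hN⟩ := hB v e hv hvV hne _ hj (pderiv_deg d 2 P hd j)
        have hfun : (fun i => pwr R (v i) (e i)) = fun i => pwr R (v 0) (e i) := by
          funext i
          fin_cases i
          · rfl
          · simp only [Fin.mk_one, hvv]
        rw [hfun] at hN ⊢
        obtain ⟨n, hn1, hnB, hn⟩ := step_eq (v 0) e (hv 0) he P B N j hNB hN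
        rcases hn with h | h
        · refine ⟨n * 2 ^ (v 0), ?_, ?_, h⟩
          · have : 1 ≤ 2 ^ (v 0) := Nat.one_le_pow _ _ (by omega)
            nlinarith
          · exact Nat.mul_le_mul hnB ((Nat.pow_le_pow_left (by omega) _).trans
              (Nat.pow_le_pow_right (by omega) (hvV 0)))
        · refine ⟨n * 3 ^ (v 0), ?_, ?_, h⟩
          · have : 1 ≤ 3 ^ (v 0) := Nat.one_le_pow _ _ (by omega)
            nlinarith
          · exact Nat.mul_le_mul hnB ((Nat.pow_le_pow_left (by omega) _).trans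
              (Nat.pow_le_pow_right (by omega) (hvV 0)))
      · -- different exponents
        have hfin : ∃ j i : Fin 2, j ≠ i ∧ pderiv j P ≠ 0 ∧ (pderiv i P = 0 ∨ v j < v i) := by
          rcases Nat.lt_or_gt_of_ne hvv with h | h
          · by_cases h1 : pderiv 0 P = 0
            · refine ⟨1, 0, by decide, ?_, Or.inl h1⟩
              fin_cases j
              · exact absurd h1 hj
              · exact hj
            · exact ⟨0, 1, by decide, h1, Or.inr h⟩
          · by_cases h1 : pderiv 1 P = 0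
            · refine ⟨0, 1, by decide, ?_, Or.inl h1⟩
              fin_cases j
              · exact hj
              · exact absurd h1 hj
            · exact ⟨1, 0, by decide, h1, Or.inr h⟩
        obtain ⟨j', i', hji, hj', hi'⟩ := hfin
        obtain ⟨N, hN1, hNB, hN⟩ := hB v e hv hvV hne _ hj' (pderiv_deg d 2 P hd j')
        obtain ⟨n, hn1, hnB, hn⟩ := step_ne v e hv P j' i' hji hi' B q hqp (by omega) N hNB hN
        refine ⟨n * q ^ (v j'), ?_, ?_, hn⟩
        · have : 1 ≤ q ^ (v j') := Nat.one_le_pow _ _ (by omega)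
          nlinarith
        · exact Nat.mul_le_mul hnB (Nat.pow_le_pow_right (by omega) (hvV j'))

end

end Pool.Agent.H298Z
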