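import Pool.Agent.H298Z.Main

/-!
# Two zeta values whose arguments satisfy no small linear relation
-/

set_option autoImplicit false

namespace Pool.Agent.H298Z

open ArithmeticFunction Finset MvPolynomial
open Pool.Agent.TH456.TM (MeasT measT_pi)

section

variable {m : ℕ}

/-- `∏ (X_i + 1) ^ (α_i)` over `ℕ` -/
noncomputable def Tp (α : Fin m →₀ ℕ) : MvPolynomial (Fin m) ℕ :=
  ∏ i ∈ α.support, (X i + 1) ^ (α i)

lemma coeff_le_eval (β : Fin m →₀ ℕ) (p : MvPolynomial (Fin m) ℕ) :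
    coeff β p ≤ eval (fun _ => 1) p := by
  rw [eval_eq]
  simp only [one_pow, Finset.prod_const_one, mul_one]
  by_cases hβ : β ∈ p.support
  · exact Finset.single_le_sum (f := fun d => coeff d p) (fun _ _ => Nat.zero_le _) hβ
  · rw [notMem_support_iff.1 hβ]
    exact Nat.zero_le _

lemma Tp_coeff_le (α β : Fin m →₀ ℕ) : coeff β (Tp α) ≤ 2 ^ (α.sum fun _ e => e) := by
  refine (coeff_le_eval β _).trans (le_of_eq ?_)
  unfold Tp
  rw [map_prod]
  simp only [map_pow, map_add, eval_X, map_one]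
  rw [Finset.prod_pow_eq_pow_sum]
  rfl

lemma Tp_totalDegree (α : Fin m →₀ ℕ) : (Tp α).totalDegree ≤ α.sum fun _ e => e := by
  unfold Tp
  refine (totalDegree_finsetProd _ _).trans ?_
  refine Finset.sum_le_sum fun i _ => ?_
  refine (totalDegree_pow _ _).trans ?_
  have h1 : (X i + 1 : MvPolynomial (Fin m) ℕ).totalDegree ≤ 1 := by
    refine (totalDegree_add _ _).trans ?_
    rw [totalDegree_one]
    have := totalDegree_X (R := ℕ) i
    omega
  calc α i * (X i + 1 : MvPolynomial (Fin m) ℕ).totalDegree ≤ α i * 1 := Nat.mul_le_mul_left _ h1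
    _ = α i := mul_one _

variable {R : Type*} [CommRing R]

/-- `P(X + 1)` -/
noncomputable def shift (P : MvPolynomial (Fin m) R) : MvPolynomial (Fin m) R :=
  aeval (fun i => (X i + 1 : MvPolynomial (Fin m) R)) P

lemma shift_coeff (P : MvPolynomial (Fin m) R) (β : Fin m →₀ ℕ) :
    coeff β (shift P) = ∑ α ∈ P.support, coeff α P * ((coeff β (Tp α) : ℕ) : R) := by
  unfold shift
  rw [aeval_def, eval₂_eq, coeff_sum]
  refine Finset.sum_congr rfl fun α _ => ?_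
  rw [MvPolynomial.algebraMap_eq, coeff_C_mul]
  congr 1
  have h1 : ∏ i ∈ α.support, (X i + 1 : MvPolynomial (Fin m) R) ^ (α i) =
      MvPolynomial.map (Nat.castRingHom R) (Tp α) := by
    unfold Tp
    rw [map_prod]
    refine Finset.prod_congr rfl fun i _ => ?_
    rw [map_pow, map_add, map_X, map_one]
  rw [h1, coeff_map]
  rfl

lemma shift_inv (P : MvPolynomial (Fin m) R) :
    aeval (fun i => (X i - 1 : MvPolynomial (Fin m) R)) (shift P) = P := by
  unfold shift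
  induction P using MvPolynomial.induction_on with
  | C a => rw [aeval_C, MvPolynomial.algebraMap_eq, aeval_C, MvPolynomial.algebraMap_eq]
  | add p q hp hq => rw [map_add, map_add, hp, hq]
  | mul_X p i hp => rw [map_mul, map_mul, hp, aeval_X, map_add, aeval_X, map_one, sub_add_cancel]

lemma shift_ne_zero (P : MvPolynomial (Fin m) R) (hP : P ≠ 0) : shift P ≠ 0 := by
  intro h
  apply hP
  rw [← shift_inv P, h, _root_.map_zero]

lemma shift_eval (ev : R →+* ℂ) (z : Fin m → ℂ) (P : MvPolynomial (Fin m) R) :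
    eval₂ ev z (shift P) = eval₂ ev (fun i => z i + 1) P := by
  unfold shift
  induction P using MvPolynomial.induction_on with
  | C a => rw [aeval_C, MvPolynomial.algebraMap_eq, eval₂_C, eval₂_C]
  | add p q hp hq => rw [map_add, eval₂_add, eval₂_add, hp, hq]
  | mul_X p i hp =>
    rw [map_mul, eval₂_mul, eval₂_mul, hp, aeval_X, eval₂_add, eval₂_X, eval₂_X, eval₂_one]

lemma shift_totalDegree (P : MvPolynomial (Fin m) R) (D : ℕ) (hD : P.totalDegree ≤ D) :
    (shift P).totalDegree ≤ D := by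
  rw [totalDegree]
  refine Finset.sup_le fun β hβ => ?_
  have h1 : coeff β (shift P) ≠ 0 := mem_support_iff.1 hβ
  rw [shift_coeff] at h1
  obtain ⟨α, hα, h2⟩ := Finset.exists_ne_zero_of_sum_ne_zero h1
  have h3 : coeff β (Tp α) ≠ 0 := by
    intro h
    rw [h] at h2
    simp at h2
  have h4 := le_totalDegree (mem_support_iff.2 h3)
  exact h4.trans ((Tp_totalDegree α).trans ((le_totalDegree hα).trans hD))

end

section

lemma delta_bounds (s : ℕ) (hs : 2 ≤ s) :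
    (1 / 2 : ℝ) ^ s ≤ zetaValue s - 1 ∧ zetaValue s - 1 ≤ 4 * (1 / 2 : ℝ) ^ s := by
  have h1 : Summable fun n : ℕ => 1 / ((n : ℝ) + 1) ^ s := by
    have := (summable_nat_add_iff 1).2 (Real.summable_one_div_nat_pow.2 (show 1 < s by omega))
    simpa using this
  have h2 : zetaValue s = 1 + ∑' n : ℕ, 1 / ((n : ℝ) + 2) ^ s := by
    unfold zetaValue
    rw [h1.tsum_eq_zero_add]
    congr 1
    · simp
    · refine tsum_congr fun n => ?_
      push_cast
      congr 2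
      ring
  have h3 : Summable fun n : ℕ => 1 / ((n : ℝ) + 2) ^ s := by
    have := (summable_nat_add_iff 1).2 h1
    refine this.congr fun n => ?_
    push_cast
    congr 2
    ring
  rw [h2, add_sub_cancel_left]
  constructor
  · have h4 := h3.le_tsum 0 (fun n _ => by positivity)
    refine le_trans (le_of_eq ?_) h4
    rw [one_div_pow]
    push_cast
    congr 2
    ring
  · have h5 : HasSum (fun n : ℕ => 1 / ((n : ℝ) + 2) ^ 2) (Real.pi ^ 2 / 6 - 1) := by
      have h6 := (hasSum_nat_add_iff' 2).2 hasSum_zeta_two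
      rw [Finset.sum_range_succ, Finset.sum_range_one] at h6
      have h7 : Real.pi ^ 2 / 6 - (1 / ((0 : ℕ) : ℝ) ^ 2 + 1 / ((1 : ℕ) : ℝ) ^ 2) =
          Real.pi ^ 2 / 6 - 1 := by
        norm_num
      rw [h7] at h6
      have h8 : (fun n : ℕ => 1 / ((n : ℝ) + 2) ^ 2) = fun n : ℕ => 1 / (((n + 2 : ℕ)) : ℝ) ^ 2 := by
        funext n
        push_cast
        rfl
      rw [h8]
      exact h6
    obtain ⟨t, rfl⟩ : ∃ t, s = t + 2 := ⟨s - 2, by omega⟩
    have h6 : ∀ n : ℕ, 1 / ((n : ℝ) + 2) ^ (t + 2) ≤ (1 / 2 : ℝ) ^ t * (1 / ((n : ℝ) + 2) ^ 2) := by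
      intro n
      have h7 : 1 / ((n : ℝ) + 2) ^ (t + 2) = (1 / ((n : ℝ) + 2)) ^ t * (1 / ((n : ℝ) + 2) ^ 2) := by
        rw [one_div_pow, pow_add]
        field_simp
      rw [h7]
      have h9 : (0 : ℝ) ≤ n := Nat.cast_nonneg _
      gcongr
      linarith
    have h7 := h3.tsum_le_tsum h6 (h5.summable.mul_left ((1 / 2 : ℝ) ^ t))
    rw [tsum_mul_left, h5.tsum_eq] at h7
    have h8 : Real.pi ^ 2 / 6 - 1 ≤ 1 := by
      have h5 := Real.pi_lt_d2
      have h6 := Real.pi_pos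
      nlinarith
    calc _ ≤ _ := h7
      _ ≤ (1 / 2 : ℝ) ^ t * 1 := by gcongr
      _ = 4 * (1 / 2 : ℝ) ^ (t + 2) := by rw [pow_add]; ring

/-- the generic case -/
theorem generic (x : ℂ) (hx : MeasT x) (D : ℕ) : ∃ C : ℝ, 0 < C ∧
    ∀ (s : Fin 2 → ℕ) (H : ℝ), (∀ i, 2 ≤ s i) → 1 ≤ H →
      (∀ α β : Fin 2 →₀ ℕ, (α.sum fun _ e => e) ≤ D → (β.sum fun _ e => e) ≤ D → α ≠ β →
        C * (1 + Real.log H) ≤ |∑ i, ((β i : ℝ) - α i) * s i|) →
      ∀ P : MvPolynomial (Fin 2) (Polynomial ℤ), P ≠ 0 → P.totalDegree ≤ D →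
        (∀ α, (P.coeff α).natDegree ≤ D) → (∀ α j, |(((P.coeff α).coeff j : ℤ) : ℝ)| ≤ H) →
        Real.exp (-(C * (1 + Real.log H) + D * (s 0 + s 1))) ≤
          ‖eval₂ (evx x) (fun i : Fin 2 => (zetaValue (s i) : ℂ)) P‖ := by
  obtain ⟨κ0, c0, hκ0, hc0, hmeas⟩ := hx D
  obtain ⟨X0, hX0def⟩ : ∃ X0 : ℝ, X0 = 1 + ‖x‖ := ⟨_, rfl⟩
  have hX0 : 1 ≤ X0 := by rw [hX0def]; linarith [norm_nonneg x]
  have hxX0 : ‖x‖ ≤ X0 := by rw [hX0def]; linarith
  obtain ⟨K, hK⟩ : ∃ K : ℕ, K = ⌈κ0⌉₊ := ⟨_, rfl⟩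
  have hκK : κ0 ≤ K := by rw [hK]; exact Nat.le_ceil _
  obtain ⟨A0, hA0⟩ : ∃ A0 : ℝ, A0 = ((D : ℝ) + 1) ^ 2 := ⟨_, rfl⟩
  have hDr : (0 : ℝ) ≤ D := Nat.cast_nonneg _
  have hA0' : 1 ≤ A0 := by
    rw [hA0]
    exact one_le_pow₀ (by linarith)
  obtain ⟨Y0, hY0⟩ : ∃ Y0 : ℝ, Y0 = (D + 1) * X0 ^ D := ⟨_, rfl⟩
  have hY0' : 1 ≤ Y0 := by
    rw [hY0]
    exact one_le_mul_of_one_le_of_one_le (by linarith) (one_le_pow₀ hX0)
  obtain ⟨a2, ha2⟩ : ∃ a2 : ℝ, a2 = 2 * A0 * Y0 * 4 ^ D * (A0 * 2 ^ D) ^ (K + 1) / c0 := ⟨_, rfl⟩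
  have ha2' : 0 < a2 := by rw [ha2]; positivity
  have hlog2 : 0 < Real.log 2 := Real.log_pos (by norm_num)
  refine ⟨(|Real.log a2| + (K + 1)) / Real.log 2, by positivity, ?_⟩
  intro s H hs hH1 hG P hP hPD hPn hPH
  have hHpos : 0 < H := by linarith
  have hlogH : 0 ≤ Real.log H := Real.log_nonneg hH1
  obtain ⟨G, hGdef⟩ : ∃ G : ℝ, G = (|Real.log a2| + (K + 1)) / Real.log 2 * (1 + Real.log H) :=
    ⟨_, rfl⟩
  rw [← hGdef]
  rw [← hGdef] at hG
  obtain ⟨H1, hH1def⟩ : ∃ H1 : ℝ, H1 = A0 * 2 ^ D * H := ⟨_, rfl⟩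
  have hH1' : 1 ≤ H1 := by
    rw [hH1def]
    exact one_le_mul_of_one_le_of_one_le
      (one_le_mul_of_one_le_of_one_le hA0' (one_le_pow₀ (by norm_num))) hH1
  obtain ⟨Z, hZ⟩ : ∃ Z : ℝ, Z = 2 * A0 * Y0 * 4 ^ D * H1 ^ (K + 1) / c0 := ⟨_, rfl⟩
  have hZpos : 0 < Z := by rw [hZ]; positivity
  have hZG : Z ≤ Real.exp (G * Real.log 2) := by
    have h1 : Z = a2 * H ^ (K + 1) := by
      rw [hZ, ha2, hH1def, mul_pow _ H]
      ring
    have h2 : Real.log Z ≤ G * Real.log 2 := by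
      rw [h1, Real.log_mul (by positivity) (by positivity), Real.log_pow, hGdef]
      have h3 : (|Real.log a2| + (K + 1)) / Real.log 2 * (1 + Real.log H) * Real.log 2 =
          (|Real.log a2| + (K + 1)) * (1 + Real.log H) := by
        field_simp
      rw [h3]
      have h4 : Real.log a2 ≤ |Real.log a2| := le_abs_self _
      have h5 : 0 ≤ |Real.log a2| * Real.log H := by positivity
      push_cast
      nlinarith [Nat.cast_nonneg (α := ℝ) K]
    calc Z = Real.exp (Real.log Z) := (Real.exp_log hZpos).symm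
      _ ≤ _ := Real.exp_le_exp.2 h2
  -- the shifted polynomial
  obtain ⟨Q, hQ⟩ : ∃ Q, Q = shift P := ⟨_, rfl⟩
  have hQ0 : Q ≠ 0 := by rw [hQ]; exact shift_ne_zero P hP
  have hQD : Q.totalDegree ≤ D := by rw [hQ]; exact shift_totalDegree P D hPD
  have hcard : (P.support.card : ℝ) ≤ A0 := by
    rw [hA0]
    exact_mod_cast card_support_le 2 D P hPD
  have hcardQ : (Q.support.card : ℝ) ≤ A0 := by
    rw [hA0]
    exact_mod_cast card_support_le 2 D Q hQD
  have hQn : ∀ β, (Q.coeff β).natDegree ≤ D := by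
    intro β
    rw [hQ, shift_coeff]
    refine Polynomial.natDegree_sum_le_of_forall_le _ _ fun α _ => ?_
    refine (Polynomial.natDegree_mul_le).trans ?_
    rw [Polynomial.natDegree_natCast, add_zero]
    exact hPn α
  have hQH : ∀ β j, |(((Q.coeff β).coeff j : ℤ) : ℝ)| ≤ H1 := by
    intro β j
    rw [hQ, shift_coeff, Polynomial.finsetSum_coeff]
    push_cast
    calc |∑ α ∈ P.support, (((coeff α P * ((coeff β (Tp α) : ℕ) : Polynomial ℤ)).coeff j : ℤ) : ℝ)|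
        ≤ ∑ α ∈ P.support, |(((coeff α P * ((coeff β (Tp α) : ℕ) : Polynomial ℤ)).coeff j : ℤ) : ℝ)| :=
          Finset.abs_sum_le_sum_abs _ _
      _ ≤ ∑ _α ∈ P.support, H * 2 ^ D := by
          refine Finset.sum_le_sum fun α hα => ?_
          rw [Polynomial.coeff_mul_natCast]
          push_cast
          rw [abs_mul, Nat.abs_cast]
          refine mul_le_mul (hPH α j) ?_ (by positivity) hHpos.le
          have h1 := Tp_coeff_le α β
          have h2 : 2 ^ (α.sum fun _ e => e) ≤ 2 ^ D :=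
            Nat.pow_le_pow_right (by omega) ((le_totalDegree hα).trans hPD)
          exact_mod_cast h1.trans h2
      _ = P.support.card * (H * 2 ^ D) := by rw [Finset.sum_const, nsmul_eq_mul]
      _ ≤ A0 * (H * 2 ^ D) := by gcongr
      _ = H1 := by rw [hH1def]; ring
  -- the small numbers
  obtain ⟨δ, hδ⟩ : ∃ δ : Fin 2 → ℝ, δ = fun i => zetaValue (s i) - 1 := ⟨_, rfl⟩
  have hδ1 : ∀ i, (1 / 2 : ℝ) ^ (s i) ≤ δ i := fun i => by
    rw [hδ]; exact (delta_bounds (s i) (hs i)).1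
  have hδ2 : ∀ i, δ i ≤ 4 * (1 / 2 : ℝ) ^ (s i) := fun i => by
    rw [hδ]; exact (delta_bounds (s i) (hs i)).2
  have hδ0 : ∀ i, 0 < δ i := fun i => lt_of_lt_of_le (by positivity) (hδ1 i)
  obtain ⟨w, hw⟩ : ∃ w : (Fin 2 →₀ ℕ) → ℕ, w = fun β => ∑ i, β i * s i := ⟨_, rfl⟩
  have hlowm : ∀ β : Fin 2 →₀ ℕ, (1 / 2 : ℝ) ^ (w β) ≤ ∏ i, δ i ^ (β i) := by
    intro β
    rw [hw, ← Finset.prod_pow_eq_pow_sum]
    refine Finset.prod_le_prod (fun i _ => by positivity) fun i _ => ?_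
    rw [mul_comm, pow_mul]
    exact pow_le_pow_left₀ (by positivity) (hδ1 i) _
  have hsumd : ∀ β ∈ Q.support, ∑ i, β i ≤ D := by
    intro β hβ
    have h1 := (le_totalDegree hβ).trans hQD
    rwa [Finsupp.sum_fintype _ _ (by simp)] at h1
  have huppm : ∀ β ∈ Q.support, ∏ i, δ i ^ (β i) ≤ 4 ^ D * (1 / 2 : ℝ) ^ (w β) := by
    intro β hβ
    calc ∏ i, δ i ^ (β i) ≤ ∏ i, (4 ^ (β i) * (1 / 2 : ℝ) ^ (β i * s i)) := by
          refine Finset.prod_le_prod (fun i _ => by have := hδ0 i; positivity) fun i _ => ?_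
          have h1 : (4 : ℝ) ^ (β i) * (1 / 2 : ℝ) ^ (β i * s i) = (4 * (1 / 2 : ℝ) ^ (s i)) ^ (β i) := by
            rw [mul_pow, mul_comm (β i), pow_mul]
          rw [h1]
          exact pow_le_pow_left₀ (hδ0 i).le (hδ2 i) _
      _ = 4 ^ (∑ i, β i) * (1 / 2 : ℝ) ^ (w β) := by
          rw [Finset.prod_mul_distrib, Finset.prod_pow_eq_pow_sum, Finset.prod_pow_eq_pow_sum, hw]
      _ ≤ 4 ^ D * (1 / 2 : ℝ) ^ (w β) := by
          gcongr
          · norm_num
          · exact hsumd β hβ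
  -- the value
  obtain ⟨V, hV⟩ : ∃ V : ℂ, V = eval₂ (evx x) (fun i : Fin 2 => (zetaValue (s i) : ℂ)) P := ⟨_, rfl⟩
  have hVQ : V = ∑ β ∈ Q.support, evx x (coeff β Q) * ((∏ i, δ i ^ (β i) : ℝ) : ℂ) := by
    have h1 : V = eval₂ (evx x) (fun i : Fin 2 => ((δ i : ℝ) : ℂ)) Q := by
      rw [hQ, shift_eval, hV]
      congr 1
      funext i
      rw [hδ]
      push_cast
      ring
    rw [h1, eval₂_eq']
    refine Finset.sum_congr rfl fun β _ => ?_
    push_cast
    rfl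
  -- the dominating monomial
  obtain ⟨α, hα, hαmin⟩ := Finset.exists_min_image Q.support w (support_nonempty.2 hQ0)
  have hαne : Q.coeff α ≠ 0 := mem_support_iff.1 hα
  have hlow : c0 ≤ H1 ^ K * ‖evx x (Q.coeff α)‖ := by
    have h1 := hmeas (Q.coeff α) hαne (hQn α) H1 hH1' (hQH α)
    rw [← evx_apply] at h1
    refine h1.trans ?_
    gcongr
    rw [← Real.rpow_natCast]
    exact Real.rpow_le_rpow_of_exponent_le hH1' hκK
  obtain ⟨u, hu⟩ : ∃ u : ℝ, u = (1 / 2 : ℝ) ^ (w α) := ⟨_, rfl⟩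
  have hupos : 0 < u := by rw [hu]; positivity
  have hother : ∀ β ∈ Q.support, β ≠ α → ∏ i, δ i ^ (β i) ≤ 4 ^ D * (u / Z) := by
    intro β hβ hne
    refine (huppm β hβ).trans ?_
    gcongr
    have h1 := hG α β ((le_totalDegree hα).trans hQD) ((le_totalDegree hβ).trans hQD) (Ne.symm hne)
    have h2 : ∑ i, ((β i : ℝ) - α i) * s i = (w β : ℝ) - w α := by
      rw [hw]
      push_cast
      rw [← Finset.sum_sub_distrib]
      refine Finset.sum_congr rfl fun i _ => ?_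
      ring
    have h3 : (w α : ℝ) ≤ w β := by exact_mod_cast hαmin β hβ
    rw [h2, abs_of_nonneg (by linarith)] at h1
    rw [le_div_iff₀ hZpos]
    have h4 : ∀ n : ℕ, (1 / 2 : ℝ) ^ n = Real.exp (-(n * Real.log 2)) := by
      intro n
      rw [Real.exp_neg, Real.exp_nat_mul, Real.exp_log (by norm_num), one_div, inv_pow]
    calc (1 / 2 : ℝ) ^ (w β) * Z ≤ (1 / 2 : ℝ) ^ (w β) * Real.exp (G * Real.log 2) := by gcongr
      _ = Real.exp (-((w β - G) * Real.log 2)) := by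
          rw [h4, ← Real.exp_add]
          congr 1
          ring
      _ ≤ Real.exp (-(w α * Real.log 2)) := by
          rw [Real.exp_le_exp]
          nlinarith
      _ = u := by rw [hu, h4]
  have hmainterm : c0 / H1 ^ K * u ≤ ‖evx x (Q.coeff α) * ((∏ i, δ i ^ (α i) : ℝ) : ℂ)‖ := by
    rw [norm_mul, Complex.norm_real, Real.norm_eq_abs,
      abs_of_nonneg (Finset.prod_nonneg fun i _ => by have := hδ0 i; positivity)]
    refine mul_le_mul ?_ (by rw [hu]; exact hlowm α) hupos.le (norm_nonneg _)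
    rw [div_le_iff₀ (by positivity)]
    linarith [mul_comm (H1 ^ K) ‖evx x (Q.coeff α)‖]
  have hrest : ‖∑ β ∈ Q.support.erase α, evx x (coeff β Q) * ((∏ i, δ i ^ (β i) : ℝ) : ℂ)‖ ≤
      (1 / 2) * (c0 / H1 ^ K * u) := by
    refine (norm_sum_le _ _).trans ?_
    calc ∑ β ∈ Q.support.erase α, ‖evx x (coeff β Q) * ((∏ i, δ i ^ (β i) : ℝ) : ℂ)‖
        ≤ ∑ _β ∈ Q.support.erase α, (Y0 * H1) * (4 ^ D * (u / Z)) := by
          refine Finset.sum_le_sum fun β hβ => ?_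
          obtain ⟨h1, h2⟩ := Finset.mem_erase.1 hβ
          rw [norm_mul, Complex.norm_real, Real.norm_eq_abs,
            abs_of_nonneg (Finset.prod_nonneg fun i _ => by have := hδ0 i; positivity)]
          refine mul_le_mul ?_ (hother β h2 h1)
            (Finset.prod_nonneg fun i _ => by have := hδ0 i; positivity) (by positivity)
          rw [hY0]
          exact evx_bound x X0 hX0 hxX0 D H1 (by linarith) _ (hQn β) (hQH β)
      _ = (Q.support.erase α).card * ((Y0 * H1) * (4 ^ D * (u / Z))) := by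
          rw [Finset.sum_const, nsmul_eq_mul]
      _ ≤ A0 * ((Y0 * H1) * (4 ^ D * (u / Z))) := by
          gcongr
          refine le_trans ?_ hcardQ
          exact_mod_cast Finset.card_le_card (Finset.erase_subset _ _)
      _ = (1 / 2) * (c0 / H1 ^ K * u) := by
          rw [hZ, pow_succ]
          field_simp
  have hVsplit : V = evx x (Q.coeff α) * ((∏ i, δ i ^ (α i) : ℝ) : ℂ) +
      ∑ β ∈ Q.support.erase α, evx x (coeff β Q) * ((∏ i, δ i ^ (β i) : ℝ) : ℂ) := by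
    rw [hVQ, ← Finset.add_sum_erase _ _ hα]
  have hVlow : (1 / 2) * (c0 / H1 ^ K * u) ≤ ‖V‖ := by
    have h1 : ‖evx x (Q.coeff α) * ((∏ i, δ i ^ (α i) : ℝ) : ℂ)‖ ≤ ‖V‖ +
        ‖∑ β ∈ Q.support.erase α, evx x (coeff β Q) * ((∏ i, δ i ^ (β i) : ℝ) : ℂ)‖ := by
      have h2 := norm_sub_le V
        (∑ β ∈ Q.support.erase α, evx x (coeff β Q) * ((∏ i, δ i ^ (β i) : ℝ) : ℂ))
      rwa [hVsplit, add_sub_cancel_right, ← hVsplit] at h2
    linarith
  rw [← hV]
  refine le_trans ?_ hVlow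
  have h1 : 2 * H1 ^ K / c0 ≤ Real.exp (G * Real.log 2) := by
    refine le_trans ?_ hZG
    rw [hZ]
    refine div_le_div_of_nonneg_right ?_ hc0.le
    have h2 : (1 : ℝ) ≤ A0 * Y0 * 4 ^ D :=
      one_le_mul_of_one_le_of_one_le (one_le_mul_of_one_le_of_one_le hA0' hY0')
        (one_le_pow₀ (by norm_num))
    have h3 : (0 : ℝ) < H1 ^ K := by positivity
    calc 2 * H1 ^ K ≤ 2 * (H1 ^ K * H1) := by nlinarith
      _ = 2 * 1 * (H1 ^ K * H1) := by ring
      _ ≤ 2 * (A0 * Y0 * 4 ^ D) * (H1 ^ K * H1) := by gcongr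
      _ = 2 * A0 * Y0 * 4 ^ D * H1 ^ (K + 1) := by rw [pow_succ]; ring
  have h4 : (1 / 2) * (c0 / H1 ^ K * u) = u / (2 * H1 ^ K / c0) := by
    field_simp
  rw [h4]
  have hGnn : 0 ≤ G := by
    rw [hGdef]
    positivity
  have hl2 : Real.log 2 ≤ 1 := by
    have := Real.log_two_lt_d9
    linarith
  have hwα : (w α : ℝ) ≤ D * (s 0 + s 1) := by
    have h5 := hsumd α hα
    have h7 : w α = ∑ i, α i * s i := by rw [hw]
    rw [h7]
    rw [Fin.sum_univ_two] at h5 ⊢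
    have h6 : α 0 * s 0 + α 1 * s 1 ≤ D * (s 0 + s 1) := by nlinarith [Nat.zero_le (α 0), Nat.zero_le (α 1)]
    exact_mod_cast h6
  have h5 : u = Real.exp (-(w α * Real.log 2)) := by
    rw [hu, Real.exp_neg, Real.exp_nat_mul, Real.exp_log (by norm_num), one_div, inv_pow]
  calc Real.exp (-(G + D * (s 0 + s 1))) ≤ Real.exp (-(w α * Real.log 2)) / Real.exp (G * Real.log 2) := by
        rw [← Real.exp_sub, Real.exp_le_exp]
        nlinarith [Nat.cast_nonneg (α := ℝ) (w α)]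
    _ ≤ u / (2 * H1 ^ K / c0) := by
        rw [← h5]
        gcongr

end

end Pool.Agent.H298Z
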