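import Pool.Agent.H298Z.Col
import Pool.Agent.H298Z.Gen

/-!
# Pairs of odd zeta values
-/

set_option autoImplicit false

namespace Pool.Agent.H298Z

open ArithmeticFunction Finset MvPolynomial
open Pool.Agent.TH456.TM (MeasT measT_pi)

lemma ceil_exists (s b : ℕ) (hb : 1 ≤ b) : ∃ t, s ≤ b * t ∧ b * t < s + b := by
  refine ⟨(s + b - 1) / b, ?_, ?_⟩
  · have h1 := Nat.div_add_mod (s + b - 1) b
    have h2 := Nat.mod_lt (s + b - 1) (show 0 < b by omega)
    omega
  · have h1 := Nat.div_mul_le_self (s + b - 1) b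
    rw [mul_comm] at h1
    omega

theorem pairs (x : ℂ) (hx : MeasT x) (D : ℕ) : ∃ C : ℝ, 0 < C ∧
    ∀ k l : ℕ, k ≠ l → ∀ H : ℝ, 1 ≤ H → C * (1 + Real.log H) ≤ (min k l : ℕ) →
      ∀ P : MvPolynomial (Fin 2) (Polynomial ℤ), P ≠ 0 → P.totalDegree ≤ D →
        (∀ α, (P.coeff α).natDegree ≤ D) → (∀ α j, |(((P.coeff α).coeff j : ℤ) : ℝ)| ≤ H) →
        Real.exp (-(C * (max k l : ℕ))) ≤
          ‖eval₂ (evx x) (fun i : Fin 2 => (zetaValue (![2 * k + 1, 2 * l + 1] i) : ℂ)) P‖ := by
  obtain ⟨C1, hC1, hgen⟩ := generic x hx (D + 1)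
  obtain ⟨C2, b, hC2, hb, hcol⟩ := collide x hx (D + 1)
  obtain ⟨D1, hD1⟩ : ∃ D1 : ℝ, D1 = (D : ℝ) + 1 := ⟨_, rfl⟩
  have hD1' : 1 ≤ D1 := by rw [hD1]; linarith [Nat.cast_nonneg (α := ℝ) D]
  obtain ⟨C, hC⟩ : ∃ C : ℝ, C = C1 + (1 + 6 * D1) + D1 * C2 * (2 + C1 + D1) + 3 * b := ⟨_, rfl⟩
  have hp1 : 0 ≤ D1 * C2 * (2 + C1 + D1) := by positivity
  have hCpos : 0 < C := by rw [hC]; positivity
  refine ⟨C, hCpos, fun k l hkl H hH1 hmin P hP hPD hPn hPH => ?_⟩
  have hlogH : 0 ≤ Real.log H := Real.log_nonneg hH1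
  have hPD' : P.totalDegree ≤ D + 1 := by omega
  have hPn' : ∀ α, (P.coeff α).natDegree ≤ D + 1 := fun α => (hPn α).trans (by omega)
  obtain ⟨s, hs⟩ : ∃ s : Fin 2 → ℕ, s = ![2 * k + 1, 2 * l + 1] := ⟨_, rfl⟩
  have hs0 : s 0 = 2 * k + 1 := by rw [hs]; rfl
  have hs1 : s 1 = 2 * l + 1 := by rw [hs]; rfl
  rw [← hs]
  obtain ⟨μ, hμ⟩ : ∃ μ : ℕ, μ = min k l := ⟨_, rfl⟩
  obtain ⟨M, hM⟩ : ∃ M : ℕ, M = max k l := ⟨_, rfl⟩
  rw [← hμ] at hmin
  rw [← hM]
  have hμ1 : 1 ≤ μ := by
    have h1 : 0 < (μ : ℝ) := lt_of_lt_of_le (by positivity) hmin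
    have : 0 < μ := by exact_mod_cast h1
    omega
  have hμM : μ ≤ M := by omega
  have hM1 : (1 : ℝ) ≤ M := by exact_mod_cast hμ1.trans hμM
  have hμMr : (μ : ℝ) ≤ M := by exact_mod_cast hμM
  have hkμ : μ ≤ k := by omega
  have hlμ : μ ≤ l := by omega
  have hkM : k ≤ M := by omega
  have hlM : l ≤ M := by omega
  obtain ⟨G, hG⟩ : ∃ G : ℝ, G = C1 * (1 + Real.log H) := ⟨_, rfl⟩
  have hGpos : 0 < G := by rw [hG]; positivity
  have hGC : G ≤ μ := by
    refine le_trans ?_ hmin
    rw [hG]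
    have : C1 ≤ C := by rw [hC]; linarith
    gcongr
  by_cases hcase : ∀ α β : Fin 2 →₀ ℕ, (α.sum fun _ e => e) ≤ D + 1 →
      (β.sum fun _ e => e) ≤ D + 1 → α ≠ β → G ≤ |∑ i, ((β i : ℝ) - α i) * s i|
  · -- generic case
    have h1 := hgen s H (fun i => by fin_cases i <;> simp [hs0, hs1] <;> omega) hH1
      (by rw [← hG]; exact hcase) P hP hPD' hPn' hPH
    refine le_trans ?_ h1
    rw [Real.exp_le_exp, ← hG, hs0, hs1]
    have h2 : (k : ℝ) ≤ M := by exact_mod_cast hkM
    have h3 : (l : ℝ) ≤ M := by exact_mod_cast hlM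
    push_cast
    rw [← hD1]
    have h4 : D1 * (2 * (k : ℝ) + 1 + (2 * l + 1)) ≤ D1 * (6 * M) := by
      gcongr
      linarith
    have h5 : (1 + 6 * D1) * (M : ℝ) ≤ C * M := by
      gcongr
      rw [hC]
      linarith
    nlinarith
  · -- a small linear relation
    push Not at hcase
    obtain ⟨α, β, hα, hβ, hne, hlt⟩ := hcase
    rw [Fin.sum_univ_two] at hlt
    rw [Finsupp.sum_fintype _ _ (by simp), Fin.sum_univ_two] at hα hβ
    have hs0r : (s 0 : ℝ) = 2 * k + 1 := by rw [hs0]; push_cast; ring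
    have hs1r : (s 1 : ℝ) = 2 * l + 1 := by rw [hs1]; push_cast; ring
    have hkμr : (μ : ℝ) ≤ k := by exact_mod_cast hkμ
    have hlμr : (μ : ℝ) ≤ l := by exact_mod_cast hlμ
    have hs0G : G < s 0 := by rw [hs0r]; linarith
    have hs1G : G < s 1 := by rw [hs1r]; linarith
    -- opposite signs
    obtain ⟨a, b', ha1, haD, hb1, hbD, hab⟩ : ∃ a b' : ℕ, 1 ≤ a ∧ a ≤ D + 1 ∧ 1 ≤ b' ∧ b' ≤ D + 1 ∧
        |(a : ℝ) * s 0 - b' * s 1| < G := by
      have hne' : α 0 ≠ β 0 ∨ α 1 ≠ β 1 := by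
        by_contra h
        push Not at h
        apply hne
        ext i
        fin_cases i
        · exact h.1
        · exact h.2
      rcases Nat.lt_trichotomy (α 0) (β 0) with h0 | h0 | h0
      · rcases Nat.lt_or_ge (β 1) (α 1) with h1 | h1
        · refine ⟨β 0 - α 0, α 1 - β 1, by omega, by omega, by omega, by omega, ?_⟩
          rw [Nat.cast_sub h0.le, Nat.cast_sub h1.le]
          have h5 : ((β 0 : ℝ) - α 0) * s 0 - ((α 1 : ℝ) - β 1) * s 1 =
              ((β 0 : ℝ) - α 0) * s 0 + ((β 1 : ℝ) - α 1) * s 1 := by ring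
          rw [h5]
          exact hlt
        · exfalso
          have h2 : (1 : ℝ) ≤ (β 0 : ℝ) - α 0 := by
            have : (α 0 : ℝ) + 1 ≤ β 0 := by exact_mod_cast h0
            linarith
          have h3 : (0 : ℝ) ≤ (β 1 : ℝ) - α 1 := by
            have : (α 1 : ℝ) ≤ β 1 := by exact_mod_cast h1
            linarith
          have h4 := lt_of_abs_lt hlt
          nlinarith
      · rcases Nat.lt_trichotomy (α 1) (β 1) with h1 | h1 | h1
        · exfalso
          have h3 : (1 : ℝ) ≤ (β 1 : ℝ) - α 1 := by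
            have : (α 1 : ℝ) + 1 ≤ β 1 := by exact_mod_cast h1
            linarith
          have h4 := lt_of_abs_lt hlt
          rw [h0, sub_self, zero_mul, zero_add] at h4
          nlinarith
        · omega
        · exfalso
          have h3 : (1 : ℝ) ≤ (α 1 : ℝ) - β 1 := by
            have : (β 1 : ℝ) + 1 ≤ α 1 := by exact_mod_cast h1
            linarith
          have h4 := neg_lt_of_abs_lt hlt
          rw [h0, sub_self, zero_mul, zero_add] at h4
          nlinarith
      · rcases Nat.lt_or_ge (α 1) (β 1) with h1 | h1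
        · refine ⟨α 0 - β 0, β 1 - α 1, by omega, by omega, by omega, by omega, ?_⟩
          rw [Nat.cast_sub h0.le, Nat.cast_sub h1.le]
          have h5 : ((α 0 : ℝ) - β 0) * s 0 - ((β 1 : ℝ) - α 1) * s 1 =
              -(((β 0 : ℝ) - α 0) * s 0 + ((β 1 : ℝ) - α 1) * s 1) := by ring
          rw [h5, abs_neg]
          exact hlt
        · exfalso
          have h2 : (1 : ℝ) ≤ (α 0 : ℝ) - β 0 := by
            have : (β 0 : ℝ) + 1 ≤ α 0 := by exact_mod_cast h0
            linarith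
          have h3 : (0 : ℝ) ≤ (α 1 : ℝ) - β 1 := by
            have : (β 1 : ℝ) ≤ α 1 := by exact_mod_cast h1
            linarith
          have h4 := neg_lt_of_abs_lt hlt
          nlinarith
    have hab1 := lt_of_abs_lt hab
    have hab2 := neg_lt_of_abs_lt hab
    obtain ⟨t0, ht0, ht0'⟩ := ceil_exists (s 0) b' hb1
    obtain ⟨t1, ht1, ht1'⟩ := ceil_exists (s 1) a ha1
    obtain ⟨τ, hτ⟩ : ∃ τ : ℕ, τ = max t0 t1 := ⟨_, rfl⟩
    have hτ0 : s 0 ≤ b' * τ := ht0.trans (Nat.mul_le_mul_left _ (by omega))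
    have hτ1 : s 1 ≤ a * τ := ht1.trans (Nat.mul_le_mul_left _ (by omega))
    obtain ⟨L, hL⟩ : ∃ L : ℕ, L = ⌈G⌉₊ + (D + 1) := ⟨_, rfl⟩
    have hLG : G + (D + 1) ≤ L := by
      rw [hL]
      push_cast
      linarith [Nat.le_ceil G]
    have hLG' : (L : ℝ) ≤ G + 1 + D1 := by
      rw [hL, hD1]
      push_cast
      linarith [Nat.ceil_lt_add_one hGpos.le]
    have ha1r : (1 : ℝ) ≤ a := by exact_mod_cast ha1
    have hb1r : (1 : ℝ) ≤ b' := by exact_mod_cast hb1
    have haDr : (a : ℝ) ≤ D + 1 := by exact_mod_cast haD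
    have hbDr : (b' : ℝ) ≤ D + 1 := by exact_mod_cast hbD
    have hDL : D + 1 ≤ L := by omega
    -- the two defects
    have he : b' * τ - s 0 ≤ L ∧ a * τ - s 1 ≤ L := by
      rcases Nat.le_total t1 t0 with h | h
      · have hτt : τ = t0 := by omega
        have h1 : b' * τ < s 0 + b' := by rw [hτt]; exact ht0'
        refine ⟨by omega, ?_⟩
        have h2 : (b' : ℝ) * τ < s 0 + b' := by exact_mod_cast h1
        have h3 : (b' : ℝ) * (a * τ - s 1) < b' * (G + (D + 1)) := by
          have h4 : (a : ℝ) * (b' * τ) < a * (s 0 + b') := by gcongr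
          nlinarith
        have h5 : (a : ℝ) * τ - s 1 < G + (D + 1) := lt_of_mul_lt_mul_left h3 (by positivity)
        have h6 : ((a * τ - s 1 : ℕ) : ℝ) ≤ L := by
          rw [Nat.cast_sub hτ1]
          push_cast
          linarith
        exact_mod_cast h6
      · have hτt : τ = t1 := by omega
        have h1 : a * τ < s 1 + a := by rw [hτt]; exact ht1'
        refine ⟨?_, by omega⟩
        have h2 : (a : ℝ) * τ < s 1 + a := by exact_mod_cast h1
        have h3 : (a : ℝ) * (b' * τ - s 0) < a * (G + (D + 1)) := by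
          have h4 : (b' : ℝ) * (a * τ) < b' * (s 1 + a) := by gcongr
          nlinarith
        have h5 : (b' : ℝ) * τ - s 0 < G + (D + 1) := lt_of_mul_lt_mul_left h3 (by positivity)
        have h6 : ((b' * τ - s 0 : ℕ) : ℝ) ≤ L := by
          rw [Nat.cast_sub hτ0]
          push_cast
          linarith
        exact_mod_cast h6
    have hτlow : C2 * (1 + Real.log H + L) ≤ τ := by
      have h1 : (μ : ℝ) ≤ D1 * τ := by
        have h2 : (s 0 : ℝ) ≤ b' * τ := by exact_mod_cast hτ0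
        have h3 : (b' : ℝ) * τ ≤ D1 * τ := by
          rw [hD1]
          gcongr
        linarith
      have h4 : D1 * C2 * (2 + C1 + D1) * (1 + Real.log H) ≤ D1 * τ := by
        refine le_trans ?_ (hmin.trans h1)
        gcongr
        rw [hC]
        linarith
      have h5 : C2 * (2 + C1 + D1) * (1 + Real.log H) ≤ τ := by
        have h6 : D1 * (C2 * (2 + C1 + D1) * (1 + Real.log H)) ≤ D1 * τ := by
          linarith
        exact le_of_mul_le_mul_left h6 (by linarith)
      refine le_trans ?_ h5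
      rw [mul_assoc]
      refine mul_le_mul_of_nonneg_left ?_ hC2.le
      rw [hG] at hLG'
      nlinarith
    have hτup : (τ : ℝ) ≤ 3 * M := by
      have h1 : t0 ≤ s 0 := by
        by_contra h
        push Not at h
        have h2 : b' * (s 0 + 1) ≤ b' * t0 := Nat.mul_le_mul_left _ h
        nlinarith
      have h2 : t1 ≤ s 1 := by
        by_contra h
        push Not at h
        have h2 : a * (s 1 + 1) ≤ a * t1 := Nat.mul_le_mul_left _ h
        nlinarith
      have h3 : τ ≤ 2 * M + 1 := by omega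
      have h4 : (τ : ℝ) ≤ 2 * M + 1 := by exact_mod_cast h3
      linarith
    have hfin := hcol ![b', a] ![b' * τ - s 0, a * τ - s 1] L τ H
      (fun i => by fin_cases i <;> simp <;> omega) (fun i => by fin_cases i <;> simp <;> omega)
      (by
        by_cases hba : b' = a
        · right
          simp only [Matrix.cons_val_zero, Matrix.cons_val_one]
          intro h
          rw [hba] at h hτ0
          apply hkl
          omega
        · left
          simpa using hba)
      (fun i => by fin_cases i <;> simp <;> [have := he.1; have := he.2] <;> omega) hH1 hτlow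
      P hP hPD' hPn' hPH
    have hval : (fun i : Fin 2 => (zetaValue (![b', a] i * τ - ![b' * τ - s 0, a * τ - s 1] i) : ℂ)) =
        fun i : Fin 2 => (zetaValue (s i) : ℂ) := by
      funext i
      fin_cases i
      · simp only [Fin.zero_eta, Matrix.cons_val_zero]
        rw [Nat.sub_sub_self hτ0]
      · simp only [Fin.mk_one, Matrix.cons_val_one, Matrix.cons_val_fin_one]
        rw [Nat.sub_sub_self hτ1]
    rw [hval] at hfin
    refine le_trans ?_ hfin
    rw [Real.exp_le_exp]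
    have h1 : b * τ ≤ b * (3 * M) := by gcongr
    have h2 : 3 * b * M ≤ C * M := by
      gcongr
      rw [hC]
      linarith
    linarith

end Pool.Agent.H298Z
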